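import Pool.Agent.Q331.Del.Model

/-!
# The complete bipartite metric space and work functions on it
-/

namespace Q331.Del

open Finset

/-- The vertex set of the complete bipartite graph with parts of sizes `2` and `n - 2`. -/
def KV (n : ℕ) : Type := Fin n

instance (n : ℕ) : Fintype (KV n) := inferInstanceAs (Fintype (Fin n))
instance (n : ℕ) : DecidableEq (KV n) := inferInstanceAs (DecidableEq (Fin n))

/-- The side of a vertex. -/
def side {n : ℕ} (x : KV n) : Bool := decide (Fin.val (show Fin n from x) < 2)

/-- The graph distance. -/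
def dz {n : ℕ} (x y : KV n) : ℤ := if x = y then 0 else if side x = side y then 2 else 1

lemma dz_self {n : ℕ} (x : KV n) : dz x x = 0 := by simp [dz]

lemma dz_comm {n : ℕ} (x y : KV n) : dz x y = dz y x := by
  unfold dz
  by_cases h : x = y
  · simp [h]
  · by_cases h2 : side x = side y
    · simp [h, h2, Ne.symm h]
    · simp [h, h2, Ne.symm h, Ne.symm h2]

lemma dz_same {n : ℕ} {x y : KV n} (h : x ≠ y) (hs : side x = side y) : dz x y = 2 := by
  simp [dz, h, hs]

lemma dz_opp {n : ℕ} {x y : KV n} (hs : side x ≠ side y) : dz x y = 1 := by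
  have : x ≠ y := by rintro rfl; exact hs rfl
  simp [dz, this, hs]

lemma dz_nonneg {n : ℕ} (x y : KV n) : 0 ≤ dz x y := by
  unfold dz; split_ifs <;> norm_num

lemma dz_le_two {n : ℕ} (x y : KV n) : dz x y ≤ 2 := by
  unfold dz; split_ifs <;> norm_num

lemma one_le_dz {n : ℕ} {x y : KV n} (h : x ≠ y) : 1 ≤ dz x y := by
  unfold dz; split_ifs <;> simp_all

lemma dz_tri {n : ℕ} (x y z : KV n) : dz x z ≤ dz x y + dz y z := by
  by_cases h1 : x = y
  · subst h1; rw [dz_self]; simp
  by_cases h2 : y = z
  · subst h2; rw [dz_self]; simp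
  have a := one_le_dz h1
  have b := one_le_dz h2
  have c := dz_le_two x z
  omega

noncomputable instance (n : ℕ) : MetricSpace (KV n) where
  dist x y := (dz x y : ℝ)
  dist_self x := by simp [dz_self]
  dist_comm x y := by simp [dz_comm x y]
  dist_triangle x y z := by exact_mod_cast dz_tri x y z
  eq_of_dist_eq_zero := by
    intro x y h
    by_contra hne
    have h1 := one_le_dz hne
    have h2 : (dz x y : ℝ) = 0 := h
    have h3 : dz x y = 0 := by exact_mod_cast h2
    omega

lemma dist_def {n : ℕ} (x y : KV n) : dist x y = (dz x y : ℝ) := rfl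

/-- Both sides have at least two points. -/
lemma exists_other {n : ℕ} (hn : 4 ≤ n) (b : Bool) (x : KV n) : ∃ y : KV n, y ≠ x ∧ side y = b := by
  have h0 : 0 < n := by omega
  have h1 : 1 < n := by omega
  have h2 : 2 < n := by omega
  have h3 : 3 < n := by omega
  cases b with
  | true =>
    by_cases h : x = (show KV n from (⟨0, h0⟩ : Fin n))
    · refine ⟨(show KV n from (⟨1, h1⟩ : Fin n)), ?_, ?_⟩
      · rw [h]; intro hh
        have := congrArg (fun z : KV n => Fin.val (show Fin n from z)) hh
        simp at this
      · simp [side]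
    · exact ⟨(show KV n from (⟨0, h0⟩ : Fin n)), Ne.symm h, by simp [side]⟩
  | false =>
    by_cases h : x = (show KV n from (⟨2, h2⟩ : Fin n))
    · refine ⟨(show KV n from (⟨3, h3⟩ : Fin n)), ?_, ?_⟩
      · rw [h]; intro hh
        have := congrArg (fun z : KV n => Fin.val (show Fin n from z)) hh
        simp at this
      · simp [side]
    · exact ⟨(show KV n from (⟨2, h2⟩ : Fin n)), Ne.symm h, by simp [side]⟩

/-- Integer functions whose values at adjacent vertices differ by exactly one. -/
def Good {n : ℕ} (w : KV n → ℤ) : Prop :=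
  ∀ x y, side x ≠ side y → w x = w y + 1 ∨ w y = w x + 1

/-- `h` is a strict local minimum. -/
def LocMin {n : ℕ} (w : KV n → ℤ) (h : KV n) : Prop := ∀ y, side y ≠ side h → w y = w h + 1

open Classical in
/-- The update on a request at `h`: a local minimum is raised by two. -/
noncomputable def upd {n : ℕ} (w : KV n → ℤ) (h : KV n) : KV n → ℤ :=
  if LocMin w h then Function.update w h (w h + 2) else w

lemma upd_of_ne {n : ℕ} (w : KV n → ℤ) {h x : KV n} (hx : x ≠ h) : upd w h x = w x := by
  unfold upd
  split_ifs
  · simp [hx]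
  · rfl

lemma good_upd {n : ℕ} {w : KV n → ℤ} (hw : Good w) (h : KV n) : Good (upd w h) := by
  unfold upd
  split_ifs with hm
  · intro x y hxy
    by_cases hx : x = h
    · subst hx
      have hy : y ≠ x := by rintro rfl; exact hxy rfl
      rw [Function.update_self, Function.update_of_ne hy]
      have := hm y (Ne.symm hxy)
      left; omega
    · by_cases hy : y = h
      · subst hy
        rw [Function.update_self, Function.update_of_ne hx]
        have := hm x hxy
        right; omega
      · rw [Function.update_of_ne hx, Function.update_of_ne hy]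
        exact hw x y hxy
  · exact hw

lemma good_two {n : ℕ} (hn : 4 ≤ n) {w : KV n → ℤ} (hw : Good w) (x y : KV n)
    (hxy : x ≠ y) (hs : side x = side y) : w x = w y ∨ w x = w y + 2 ∨ w y = w x + 2 := by
  obtain ⟨z, -, hz⟩ := exists_other hn (!side x) x
  have h1 : side x ≠ side z := by rw [hz]; simp
  have h2 : side y ≠ side z := by rw [hz, hs]; simp
  rcases hw x z h1 with a | a <;> rcases hw y z h2 with b | b <;> omega

lemma good_lip {n : ℕ} (hn : 4 ≤ n) {w : KV n → ℤ} (hw : Good w) (x y : KV n) :
    w x ≤ w y + dz x y := by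
  by_cases hxy : x = y
  · subst hxy; simp [dz_self]
  · by_cases hs : side x = side y
    · rw [dz_same hxy hs]
      rcases good_two hn hw x y hxy hs with a | a | a <;> omega
    · rw [dz_opp hs]
      rcases hw x y hs with a | a <;> omega

end Q331.Del
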