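import Pool.Agent.Q331.Del.Bip

/-!
# Lower bound `k` for the delayed `k`-server problem on the complete bipartite space
-/

namespace Q331.Del

open Finset

variable {k : ℕ}

/-- An injective configuration with hole `x` covers everything else. -/
lemma cover {e : Fin k → KV (k + 1)} (he : Function.Injective e) {x : KV (k + 1)}
    (hx : ∀ i, e i ≠ x) {z : KV (k + 1)} (hz : z ≠ x) : ∃ i, e i = z := by
  classical
  have h1 : (univ.image e) = univ.erase x := by
    apply eq_of_subset_of_card_le
    · intro y hy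
      obtain ⟨i, -, rfl⟩ := mem_image.mp hy
      exact mem_erase.mpr ⟨hx i, mem_univ _⟩
    · rw [card_image_of_injective _ he, card_erase_of_mem (mem_univ _)]
      have : Fintype.card (KV (k + 1)) = k + 1 := Fintype.card_fin (k + 1)
      rw [card_univ, card_univ, this, Fintype.card_fin]
      simp
  have h2 : z ∈ univ.image e := by rw [h1]; exact mem_erase.mpr ⟨hz, mem_univ _⟩
  obtain ⟨i, -, hi⟩ := mem_image.mp h2
  exact ⟨i, hi⟩

lemma exists_inj (x a : KV (k + 1)) (ha : a ≠ x) (f : Fin k) :
    ∃ e : Fin k → KV (k + 1), Function.Injective e ∧ (∀ i, e i ≠ x) ∧ e f = a := by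
  classical
  have hc : Fintype.card (Fin k) = Fintype.card {y : KV (k + 1) // y ≠ x} := by
    rw [Fintype.card_subtype_compl, Fintype.card_fin, Fintype.card_subtype_eq]
    have : Fintype.card (KV (k + 1)) = k + 1 := Fintype.card_fin (k + 1)
    rw [this]; simp
  obtain ⟨e0⟩ := Fintype.card_eq.mp hc
  refine ⟨fun i => (e0 (Equiv.swap f (e0.symm ⟨a, ha⟩) i)).val, ?_, ?_, ?_⟩
  · intro i j hij
    have := Subtype.ext hij
    exact (Equiv.swap f (e0.symm ⟨a, ha⟩)).injective (e0.injective this)
  · intro i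
    exact (e0 (Equiv.swap f (e0.symm ⟨a, ha⟩) i)).2
  · simp

/-- What the adversary knows about the offline optimum. -/
structure OffInv (s₀ : State (KV (k + 1)) k) (ρ : List (KV (k + 1))) (p q : KV (k + 1))
    (w : KV (k + 1) → ℤ) : Prop where
  pq : p ≠ q
  reach : ∀ x, x ≠ p → x ≠ q → ∃ s c, Run (delayedA (KV (k + 1)) k) s₀ ρ s c ∧ c ≤ (w x : ℝ) ∧
    Function.Injective s.pos ∧ (∀ i, s.pos i ≠ x) ∧ s.pos s.frozen = q
  suppp : ∃ y, y ≠ p ∧ y ≠ q ∧ w p = w y + dz y p
  suppq : ∃ y, y ≠ p ∧ y ≠ q ∧ w q = w y + dz y q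

lemma moveCost_update (e : Fin k → KV (k + 1)) (i : Fin k) (y : KV (k + 1)) :
    moveCost e (Function.update e i y) = dist (e i) y := by
  classical
  unfold moveCost
  rw [sum_eq_single i]
  · rw [Function.update_self]
  · intro j _ hj
    rw [Function.update_of_ne hj, dist_self]
  · intro h; exact absurd (mem_univ _) h

lemma moveCost_self (e : Fin k → KV (k + 1)) : moveCost e e = 0 := by
  unfold moveCost; simp

lemma offStep (hk : 3 ≤ k) {s₀ : State (KV (k + 1)) k} {ρ : List (KV (k + 1))}
    {p q : KV (k + 1)} {w : KV (k + 1) → ℤ} (H : OffInv s₀ ρ p q w) (hw : Good w)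
    {r : KV (k + 1)} (hr : r ≠ q) (hq : ∃ y, y ≠ q ∧ y ≠ r ∧ w q = w y + dz y q) :
    OffInv s₀ (ρ ++ [r]) q r (upd w r) := by
  classical
  refine ⟨hr.symm, ?_, ?_, ?_⟩
  · intro x hxq hxr
    rw [upd_of_ne w hxr]
    by_cases hxp : x = p
    · subst hxp
      obtain ⟨y, hyp, hyq, hy⟩ := H.suppp
      obtain ⟨s, c, hrun, hc, hinj, hhole, hf⟩ := H.reach y hyp hyq
      obtain ⟨i, hi⟩ := cover hinj hhole (Ne.symm hyp)
      have hif : i ≠ s.frozen := by
        rintro rfl; rw [hf] at hi; exact hxq hi.symm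
      have hinj' : Function.Injective (Function.update s.pos i y) := by
        intro a b hab
        by_cases ha : a = i
        · by_cases hb : b = i
          · rw [ha, hb]
          · rw [ha, Function.update_self, Function.update_of_ne hb] at hab
            exact absurd hab.symm (hhole b)
        · by_cases hb : b = i
          · rw [hb, Function.update_self, Function.update_of_ne ha] at hab
            exact absurd hab (hhole a)
          · rw [Function.update_of_ne ha, Function.update_of_ne hb] at hab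
            exact hinj hab
      have hhole' : ∀ j, Function.update s.pos i y j ≠ x := by
        intro j
        by_cases hj : j = i
        · rw [hj, Function.update_self]; exact hyp
        · rw [Function.update_of_ne hj, ← hi]
          intro h; exact hj (hinj h)
      obtain ⟨j, hj⟩ := cover hinj' hhole' (Ne.symm hxr)
      refine ⟨⟨Function.update s.pos i y, j⟩, c + (delayedA (KV (k + 1)) k).cost s
        ⟨Function.update s.pos i y, j⟩, Run.snoc hrun ⟨?_, hj⟩, ?_, hinj', hhole', hj⟩
      · show Function.update s.pos i y s.frozen = s.pos s.frozen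
        rw [Function.update_of_ne (Ne.symm hif)]
      · show c + moveCost s.pos (Function.update s.pos i y) ≤ _
        rw [moveCost_update, hi, dist_def, hy, dz_comm x y]
        push_cast
        linarith
    · obtain ⟨s, c, hrun, hc, hinj, hhole, hf⟩ := H.reach x hxp hxq
      obtain ⟨j, hj⟩ := cover hinj hhole (Ne.symm hxr)
      refine ⟨⟨s.pos, j⟩, c + (delayedA (KV (k + 1)) k).cost s ⟨s.pos, j⟩,
        Run.snoc hrun ⟨rfl, hj⟩, ?_, hinj, hhole, hj⟩
      show c + moveCost s.pos s.pos ≤ _
      rw [moveCost_self]; linarith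
  · obtain ⟨y, hyq, hyr, hy⟩ := hq
    refine ⟨y, hyq, hyr, ?_⟩
    rw [upd_of_ne w hyr, upd_of_ne w (Ne.symm hr), hy]
  · obtain ⟨z, hzq, hz⟩ := exists_other (n := k + 1) (by omega) (!side r) q
    have hzr : side z ≠ side r := by rw [hz]; simp
    have hzr' : z ≠ r := by rintro rfl; exact hzr rfl
    by_cases hm : LocMin w r
    · refine ⟨z, hzq, hzr', ?_⟩
      have h1 := hm z hzr
      rw [upd_of_ne w hzr', dz_opp hzr]
      unfold upd
      rw [if_pos hm, Function.update_self]
      omega
    · have hu : upd w r = w := by unfold upd; rw [if_neg hm]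
      rw [hu]
      unfold LocMin at hm
      push Not at hm
      obtain ⟨y0, hy0, hy0'⟩ := hm
      have e0 : w r = w y0 + 1 := by
        rcases hw y0 r hy0 with a | a
        · exact absurd a hy0'
        · exact a
      have hy0r : y0 ≠ r := by rintro rfl; exact hy0 rfl
      by_cases hyq : y0 = q
      · subst hyq
        obtain ⟨y, hyq, hyr, hy⟩ := hq
        by_cases hs : side y = side y0
        · exfalso
          have h2 : side y ≠ side r := by rw [hs]; exact hy0
          have h3 := hw y r h2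
          rw [dz_same hyq hs] at hy
          omega
        · rw [dz_opp hs] at hy
          have h2 : side y = side r := by
            cases h5 : side y <;> cases h6 : side y0 <;> cases h7 : side r <;> simp_all
          have h3 := hw z y (by rw [h2]; exact hzr)
          have h4 := hw z r hzr
          refine ⟨z, hzq, hzr', ?_⟩
          rw [dz_opp hzr]
          omega
      · refine ⟨y0, hyq, hy0r, ?_⟩
        rw [dz_opp hy0]
        exact e0

/-- What the adversary knows about the online algorithm: a virtual lazy algorithm with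
positions `v` and hole `h`. -/
structure OnInv (A : List (KV (k + 1)) → State (KV (k + 1)) k) (ρ : List (KV (k + 1)))
    (q h : KV (k + 1)) (v : Fin k → KV (k + 1)) (virt : ℤ) (P0 : ℝ) : Prop where
  lastq : (A ρ).pos (A ρ).frozen = q
  inj : Function.Injective v
  hole : ∀ i, v i ≠ h
  vq : v (A ρ).frozen = q
  cost : (virt : ℝ) + ∑ j, dist (v j) ((A ρ).pos j) ≤ algCost (delayedA (KV (k + 1)) k) A ρ + P0

lemma sum_dist_move (v c c' : Fin k → KV (k + 1)) :
    ∑ j, dist (v j) (c' j) ≤ ∑ j, dist (v j) (c j) + moveCost c c' := by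
  unfold moveCost
  rw [← sum_add_distrib]
  exact sum_le_sum fun j _ => dist_triangle _ _ _

lemma sum_update_eq (v : Fin k → KV (k + 1)) (f : Fin k → KV (k + 1)) (i : Fin k)
    (y : KV (k + 1)) : ∑ j, dist (Function.update v i y j) (f j) =
      ∑ j, dist (v j) (f j) - dist (v i) (f i) + dist y (f i) := by
  classical
  rw [← Finset.add_sum_erase univ _ (mem_univ i), ← Finset.add_sum_erase univ
    (fun j => dist (v j) (f j)) (mem_univ i), Function.update_self]
  have : ∑ x ∈ univ.erase i, dist (Function.update v i y x) (f x) =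
      ∑ x ∈ univ.erase i, dist (v x) (f x) := by
    apply sum_congr rfl
    intro j hj
    rw [Function.update_of_ne (ne_of_mem_erase hj)]
  rw [this]
  ring

lemma onStep_ne {s₀ : State (KV (k + 1)) k} {A : List (KV (k + 1)) → State (KV (k + 1)) k}
    (hA : IsAlg (delayedA (KV (k + 1)) k) s₀ A) {ρ : List (KV (k + 1))} {q h : KV (k + 1)}
    {v : Fin k → KV (k + 1)} {virt : ℤ} {P0 : ℝ} (H : OnInv A ρ q h v virt P0)
    {r : KV (k + 1)} (hrh : r ≠ h) :
    ∃ v', OnInv A (ρ ++ [r]) r h v' virt P0 := by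
  classical
  obtain ⟨hs1, hs2⟩ := hA.2 ρ r
  set s := A ρ with hs
  set s' := A (ρ ++ [r]) with hs'
  obtain ⟨i, hi⟩ := cover H.inj H.hole hrh
  have key : ∑ j, dist (v (Equiv.swap i s'.frozen j)) (s'.pos j) ≤ ∑ j, dist (v j) (s'.pos j) := by
    by_cases hif : i = s'.frozen
    · rw [hif]; simp
    · have e1 : (fun j => v (Equiv.swap i s'.frozen j)) =
          Function.update (Function.update v i (v s'.frozen)) s'.frozen (v i) := by
        funext j
        by_cases hj : j = s'.frozen
        · subst hj; rw [Function.update_self, Equiv.swap_apply_right]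
        · rw [Function.update_of_ne hj]
          by_cases hj2 : j = i
          · subst hj2; rw [Function.update_self, Equiv.swap_apply_left]
          · rw [Function.update_of_ne hj2, Equiv.swap_apply_of_ne_of_ne hj2 hj]
      have e2 : ∑ j, dist (v (Equiv.swap i s'.frozen j)) (s'.pos j) =
          ∑ j, dist (Function.update (Function.update v i (v s'.frozen)) s'.frozen (v i) j)
            (s'.pos j) := by
        apply sum_congr rfl
        intro j _
        rw [← e1]
      rw [e2, sum_update_eq, sum_update_eq, Function.update_of_ne (Ne.symm hif), hs2, hi,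
        dist_self]
      have := dist_triangle (v s'.frozen) r (s'.pos i)
      linarith
  refine ⟨fun j => v (Equiv.swap i s'.frozen j), ?_, ?_, ?_, ?_, ?_⟩
  · exact hs2
  · intro a b hab
    exact (Equiv.swap i s'.frozen).injective (H.inj hab)
  · intro j; exact H.hole _
  · show v (Equiv.swap i s'.frozen s'.frozen) = r
    rw [Equiv.swap_apply_right, hi]
  · rw [algCost_snoc]
    have h1 := sum_dist_move v s.pos s'.pos
    have h2 := H.cost
    show (virt : ℝ) + _ ≤ algCost _ A ρ + moveCost s.pos s'.pos + P0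
    linarith

lemma onStep_eq {s₀ : State (KV (k + 1)) k} {A : List (KV (k + 1)) → State (KV (k + 1)) k}
    (hA : IsAlg (delayedA (KV (k + 1)) k) s₀ A) {ρ : List (KV (k + 1))} {q h : KV (k + 1)}
    {v : Fin k → KV (k + 1)} {virt : ℤ} {P0 : ℝ} (H : OnInv A ρ q h v virt P0) :
    ∃ h' v', h' ≠ h ∧ h' ≠ q ∧ OnInv A (ρ ++ [h]) h h' v' (virt + dz h' h) P0 := by
  classical
  obtain ⟨hs1, hs2⟩ := hA.2 ρ h
  set s := A ρ with hs
  set s' := A (ρ ++ [h]) with hs'
  have hqh : q ≠ h := by rw [← H.vq]; exact H.hole _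
  have hff : s'.frozen ≠ s.frozen := by
    intro e
    rw [e, hs1, H.lastq] at hs2
    exact hqh hs2
  refine ⟨v s'.frozen, Function.update v s'.frozen h, H.hole _, ?_, ?_, ?_, ?_, ?_, ?_⟩
  · intro e
    rw [← H.vq] at e
    exact hff (H.inj e)
  · exact hs2
  · intro a b hab
    by_cases ha : a = s'.frozen
    · by_cases hb : b = s'.frozen
      · rw [ha, hb]
      · rw [ha, Function.update_self, Function.update_of_ne hb] at hab
        exact absurd hab.symm (H.hole b)
    · by_cases hb : b = s'.frozen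
      · rw [hb, Function.update_self, Function.update_of_ne ha] at hab
        exact absurd hab (H.hole a)
      · rw [Function.update_of_ne ha, Function.update_of_ne hb] at hab
        exact H.inj hab
  · intro j
    by_cases hj : j = s'.frozen
    · rw [hj, Function.update_self]; exact (H.hole _).symm
    · rw [Function.update_of_ne hj]
      intro e; exact hj (H.inj e)
  · rw [← hs', Function.update_self]
  · rw [algCost_snoc, ← hs', sum_update_eq, hs2, dist_self]
    have h1 := sum_dist_move v s.pos s'.pos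
    have h2 := H.cost
    have h3 : dist (v s'.frozen) h = (dz (v s'.frozen) h : ℝ) := rfl
    show ((virt + dz (v s'.frozen) h : ℤ) : ℝ) + _ ≤
      algCost _ A ρ + moveCost s.pos s'.pos + P0
    push_cast
    rw [h3]
    linarith

/-- The combined invariant. -/
def Inv (s₀ : State (KV (k + 1)) k) (A : List (KV (k + 1)) → State (KV (k + 1)) k) (P0 : ℝ)
    (S1 : ℤ) (ρ : List (KV (k + 1))) (m : ℤ) : Prop :=
  ∃ p q h v w virt, OffInv s₀ ρ p q w ∧ Good w ∧ OnInv A ρ q h v virt P0 ∧
    (∑ x, w x) - w h ≤ S1 + virt ∧ m ≤ virt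

lemma upd_sum_le (hk : 3 ≤ k) {w : KV (k + 1) → ℤ} (hw : Good w) {h h' : KV (k + 1)}
    (hh : h' ≠ h) : (∑ x, upd w h x) - upd w h h' ≤ (∑ x, w x) - w h + dz h' h := by
  classical
  rw [upd_of_ne w hh]
  have hl := good_lip (n := k + 1) (by omega) hw h h'
  by_cases hm : LocMin w h
  · have hu : upd w h = Function.update w h (w h + 2) := by unfold upd; rw [if_pos hm]
    rw [hu]
    have e1 : ∑ x, Function.update w h (w h + 2) x = (∑ x, w x) + 2 := by
      rw [← Finset.add_sum_erase univ _ (mem_univ h), ← Finset.add_sum_erase univ w (mem_univ h),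
        Function.update_self]
      have : ∑ x ∈ univ.erase h, Function.update w h (w h + 2) x = ∑ x ∈ univ.erase h, w x := by
        apply sum_congr rfl
        intro j hj
        rw [Function.update_of_ne (ne_of_mem_erase hj)]
      rw [this]; ring
    rw [e1]
    by_cases hs : side h' = side h
    · rw [dz_same hh hs]
      obtain ⟨z, -, hz⟩ := exists_other (n := k + 1) (by omega) (!side h) h
      have h1 : side z ≠ side h := by rw [hz]; simp
      have h2 : side h' ≠ side z := by rw [hz, hs]; simp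
      have h3 := hm z h1
      have h4 := hw h' z h2
      omega
    · rw [dz_opp hs]
      have h3 := hm h' hs
      omega
  · have hu : upd w h = w := by unfold upd; rw [if_neg hm]
    rw [hu, dz_comm h' h]
    omega

lemma final_step (hk : 3 ≤ k) {s₀ : State (KV (k + 1)) k}
    {A : List (KV (k + 1)) → State (KV (k + 1)) k} (hA : IsAlg (delayedA (KV (k + 1)) k) s₀ A)
    {P0 : ℝ} {S1 : ℤ} {ρ : List (KV (k + 1))} {m : ℤ} {p q h : KV (k + 1)}
    {v : Fin k → KV (k + 1)} {w : KV (k + 1) → ℤ} {virt : ℤ}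
    (hoff : OffInv s₀ ρ p q w) (hw : Good w) (hon : OnInv A ρ q h v virt P0)
    (hS : (∑ x, w x) - w h ≤ S1 + virt) (hm : m ≤ virt)
    (hq : ∃ y, y ≠ q ∧ y ≠ h ∧ w q = w y + dz y q) : ∃ ρ', Inv s₀ A P0 S1 ρ' (m + 1) := by
  have hqh : q ≠ h := by rw [← hon.vq]; exact hon.hole _
  obtain ⟨h', v', hh1, hh2, hon'⟩ := onStep_eq hA hon
  refine ⟨ρ ++ [h], q, h, h', v', upd w h, virt + dz h' h, offStep hk hoff hw (Ne.symm hqh) hq,
    good_upd hw h, hon', ?_, ?_⟩
  · have := upd_sum_le hk hw hh1
    omega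
  · have := one_le_dz hh1
    omega

lemma round (hk : 3 ≤ k) {s₀ : State (KV (k + 1)) k}
    {A : List (KV (k + 1)) → State (KV (k + 1)) k} (hA : IsAlg (delayedA (KV (k + 1)) k) s₀ A)
    {P0 : ℝ} {S1 : ℤ} {ρ : List (KV (k + 1))} {m : ℤ} (H : Inv s₀ A P0 S1 ρ m) :
    ∃ ρ', Inv s₀ A P0 S1 ρ' (m + 1) := by
  obtain ⟨p, q, h, v, w, virt, hoff, hw, hon, hS, hm⟩ := H
  have hqh : q ≠ h := by rw [← hon.vq]; exact hon.hole _
  by_cases hgood : ∃ y, y ≠ q ∧ y ≠ h ∧ w q = w y + dz y q
  · exact final_step hk hA hoff hw hon hS hm hgood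
  · push Not at hgood
    obtain ⟨y0, hy0p, hy0q, hy0⟩ := hoff.suppq
    have hy0h : y0 = h := by
      by_contra hne
      exact hgood y0 hy0q hne hy0
    subst hy0h
    have hopp : side y0 ≠ side q := by
      intro hs
      rw [dz_same hy0q hs] at hy0
      obtain ⟨z, -, hz⟩ := exists_other (n := k + 1) (by omega) (!side q) q
      have h1 : side z ≠ side q := by rw [hz]; simp
      have h2 : side z ≠ side y0 := by rw [hs]; exact h1
      have h3 := hw z q h1
      have h4 := hw z y0 h2
      have h5 : z ≠ q := by rintro rfl; exact h1 rfl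
      have h6 : z ≠ y0 := by rintro rfl; exact h2 rfl
      apply hgood z h5 h6
      rw [dz_opp h1]
      omega
    rw [dz_opp hopp] at hy0
    -- the free request
    obtain ⟨y, hyh, hy⟩ := exists_other (n := k + 1) (by omega) (side y0) y0
    have hyq : side y ≠ side q := by rw [hy]; exact hopp
    have hyq' : y ≠ q := by rintro rfl; exact hyq rfl
    have hwy : w y = w q + 1 := by
      rcases hw y q hyq with a | a
      · exact a
      · exfalso
        apply hgood y hyq' hyh
        rw [dz_opp hyq]; exact a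
    have hnm : ¬ LocMin w y := by
      intro hl
      have := hl q (Ne.symm hyq)
      omega
    have hu : upd w y = w := by unfold upd; rw [if_neg hnm]
    have hoff' := offStep hk hoff hw hyq' ⟨y0, hy0q, Ne.symm hyh, by rw [dz_opp hopp]; exact hy0⟩
    rw [hu] at hoff'
    obtain ⟨v', hon'⟩ := onStep_ne hA hon hyh
    obtain ⟨z, hzq, hz⟩ := exists_other (n := k + 1) (by omega) (side q) q
    have hzy : side z ≠ side y := by rw [hz]; exact Ne.symm hyq
    have hzy' : z ≠ y := by rintro rfl; exact hzy rfl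
    have hzh : side z ≠ side y0 := by rw [hz]; exact Ne.symm hopp
    have hzh' : z ≠ y0 := by rintro rfl; exact hzh rfl
    have h1 := hw z y hzy
    have h2 := hw z y0 hzh
    refine final_step hk hA hoff' hw hon' hS hm ⟨z, hzy', hzh', ?_⟩
    rw [dz_opp hzy]
    omega

lemma opt_le_w {s₀ : State (KV (k + 1)) k} {ρ : List (KV (k + 1))}
    {p q : KV (k + 1)} {w : KV (k + 1) → ℤ} (H : OffInv s₀ ρ p q w) (x : KV (k + 1)) :
    opt (delayedA (KV (k + 1)) k) s₀ ρ ≤ (w x : ℝ) := by
  have base : ∀ y, y ≠ p → y ≠ q → opt (delayedA (KV (k + 1)) k) s₀ ρ ≤ (w y : ℝ) := by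
    intro y hyp hyq
    obtain ⟨s, c, hrun, hc, -⟩ := H.reach y hyp hyq
    exact (opt_le delayedA_cost_nonneg hrun).trans hc
  by_cases hxp : x = p
  · obtain ⟨y, hyp, hyq, hy⟩ := H.suppp
    have h1 := base y hyp hyq
    have h2 : w y ≤ w x := by rw [hxp, hy]; have := dz_nonneg y p; omega
    have h3 : (w y : ℝ) ≤ (w x : ℝ) := by exact_mod_cast h2
    linarith
  · by_cases hxq : x = q
    · obtain ⟨y, hyp, hyq, hy⟩ := H.suppq
      have h1 := base y hyp hyq
      have h2 : w y ≤ w x := by rw [hxq, hy]; have := dz_nonneg y q; omega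
      have h3 : (w y : ℝ) ≤ (w x : ℝ) := by exact_mod_cast h2
      linarith
    · exact base x hxp hxq

lemma start (hk : 3 ≤ k) (s₀ : State (KV (k + 1)) k)
    {A : List (KV (k + 1)) → State (KV (k + 1)) k}
    (hA : IsAlg (delayedA (KV (k + 1)) k) s₀ A) :
    ∃ (P0 : ℝ) (S1 : ℤ) (ρ : List (KV (k + 1))), Inv s₀ A P0 S1 ρ 0 := by
  classical
  set q0 := s₀.pos s₀.frozen with hq0
  obtain ⟨r1, hr1, hr1s⟩ := exists_other (n := k + 1) (by omega) (!side q0) q0
  obtain ⟨z0, hz0, hz0s⟩ := exists_other (n := k + 1) (by omega) (side q0) q0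
  have hz0r : z0 ≠ r1 := by
    rintro rfl; rw [hr1s] at hz0s; simp at hz0s
  obtain ⟨hs1, hs2⟩ := hA.2 [] r1
  set s1 := A ([] ++ [r1]) with hs1'
  obtain ⟨v, hv1, hv2, hv3⟩ := exists_inj (k := k) z0 r1 (Ne.symm hz0r) s1.frozen
  set w1 : KV (k + 1) → ℤ := fun x => 2 * k + dz x z0 with hw1
  refine ⟨∑ j, dist (v j) (s1.pos j), (∑ x, w1 x) - w1 z0, [] ++ [r1], q0, r1, z0, v, w1, 0,
    ⟨Ne.symm hr1, ?_, ?_, ?_⟩, ?_, ⟨hs2, hv1, hv2, hv3, ?_⟩, by simp, le_refl _⟩
  · intro x hxq hxr
    obtain ⟨e, he1, he2, he3⟩ := exists_inj (k := k) x q0 (Ne.symm hxq) s₀.frozen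
    obtain ⟨j, hj⟩ := cover he1 he2 (Ne.symm hxr)
    refine ⟨⟨e, j⟩, 0 + (delayedA (KV (k + 1)) k).cost s₀ ⟨e, j⟩,
      Run.snoc Run.nil ⟨he3, hj⟩, ?_, he1, he2, hj⟩
    show 0 + moveCost s₀.pos e ≤ ((2 * (k : ℤ) + dz x z0 : ℤ) : ℝ)
    have h1 : moveCost s₀.pos e ≤ 2 * k := by
      unfold moveCost
      calc ∑ i, dist (s₀.pos i) (e i) ≤ ∑ _i : Fin k, (2 : ℝ) := by
            apply sum_le_sum
            intro i _
            rw [dist_def]
            exact_mod_cast dz_le_two _ _
        _ = 2 * k := by simp; ring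
    have h2 : (0 : ℝ) ≤ (dz x z0 : ℝ) := by exact_mod_cast dz_nonneg x z0
    push_cast
    linarith
  · refine ⟨z0, hz0, hz0r, ?_⟩
    simp only [hw1]
    rw [dz_self, dz_comm]
    ring
  · refine ⟨z0, hz0, hz0r, ?_⟩
    simp only [hw1]
    rw [dz_self, dz_comm]
    ring
  · intro x y hxy
    simp only [hw1]
    by_cases hx : x = z0
    · subst hx
      rw [dz_self, dz_opp (Ne.symm hxy)]
      right; ring
    · by_cases hy : y = z0
      · subst hy
        rw [dz_self, dz_opp hxy]
        left; ring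
      · by_cases hxs : side x = side z0
        · have hys : side y ≠ side z0 := by rw [← hxs]; exact Ne.symm hxy
          rw [dz_same hx hxs, dz_opp hys]
          left; ring
        · have hys : side y = side z0 := by
            cases h5 : side y <;> cases h6 : side z0 <;> cases h7 : side x <;> simp_all
          rw [dz_opp hxs, dz_same hy hys]
          right; ring
  · have : 0 ≤ algCost (delayedA (KV (k + 1)) k) A ([] ++ [r1]) := by
      unfold algCost
      exact sum_nonneg fun _ _ => delayedA_cost_nonneg _ _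
    push_cast
    rw [← hs1']
    linarith

/-- **Lower bound.** -/
theorem no_better (hk : 3 ≤ k) (s₀ : State (KV (k + 1)) k) {C : ℝ}
    (hC : Competitive (delayedA (KV (k + 1)) k) s₀ C) : (k : ℝ) ≤ C := by
  classical
  obtain ⟨A, hA, K, hK⟩ := hC
  by_contra hlt
  push Not at hlt
  obtain ⟨P0, S1, ρ0, h0⟩ := start hk s₀ hA
  have hall : ∀ m : ℕ, ∃ ρ, Inv s₀ A P0 S1 ρ (m : ℤ) := by
    intro m
    induction m with
    | zero => exact ⟨ρ0, h0⟩
    | succ m ih =>
      obtain ⟨ρ, hρ⟩ := ih
      obtain ⟨ρ', hρ'⟩ := round hk hA hρ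
      exact ⟨ρ', by push_cast; exact hρ'⟩
  have hkpos : (0 : ℝ) < k := by
    have : 0 < k := by omega
    exact_mod_cast this
  -- main inequality
  set Cp : ℝ := max C 0 with hCp
  have hCp0 : 0 ≤ Cp := le_max_right _ _
  have hCpk : Cp < k := max_lt hlt hkpos
  have main : ∀ m : ℕ, (m : ℝ) * (k - Cp) ≤ k * (P0 + K) + Cp * S1 := by
    intro m
    obtain ⟨ρ, p, q, h, v, w, virt, hoff, hw, hon, hS, hm⟩ := hall m
    have h1 := hon.cost
    have h2 : 0 ≤ ∑ j, dist (v j) ((A ρ).pos j) := sum_nonneg fun _ _ => dist_nonneg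
    have h3 := hK ρ
    have hopt0 : 0 ≤ opt (delayedA (KV (k + 1)) k) s₀ ρ := opt_nonneg delayedA_cost_nonneg ρ
    have h4 : (k : ℝ) * opt (delayedA (KV (k + 1)) k) s₀ ρ ≤ (S1 : ℝ) + virt := by
      have h5 : (k : ℝ) * opt (delayedA (KV (k + 1)) k) s₀ ρ ≤ ((∑ x, w x) - w h : ℤ) := by
        have e1 : (∑ x, w x) - w h = ∑ x ∈ univ.erase h, w x := by
          rw [← Finset.add_sum_erase univ w (mem_univ h)]; ring
        rw [e1]
        push_cast
        have e2 : (k : ℝ) * opt (delayedA (KV (k + 1)) k) s₀ ρ =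
            ∑ x ∈ univ.erase h, opt (delayedA (KV (k + 1)) k) s₀ ρ := by
          rw [sum_const, card_erase_of_mem (mem_univ _), card_univ]
          have : Fintype.card (KV (k + 1)) = k + 1 := Fintype.card_fin (k + 1)
          rw [this]
          simp
        rw [e2]
        exact sum_le_sum fun x _ => opt_le_w hoff x
      have h6 : (((∑ x, w x) - w h : ℤ) : ℝ) ≤ ((S1 + virt : ℤ) : ℝ) := by exact_mod_cast hS
      push_cast at h5 h6
      linarith
    have h7 : (virt : ℝ) ≤ C * opt (delayedA (KV (k + 1)) k) s₀ ρ + K + P0 := by linarith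
    have h8 : C * opt (delayedA (KV (k + 1)) k) s₀ ρ ≤
        Cp * opt (delayedA (KV (k + 1)) k) s₀ ρ :=
      mul_le_mul_of_nonneg_right (le_max_left _ _) hopt0
    have h9 : (k : ℝ) * (Cp * opt (delayedA (KV (k + 1)) k) s₀ ρ) ≤ Cp * (S1 + virt) := by
      have := mul_le_mul_of_nonneg_left h4 hCp0
      nlinarith
    have h10 : (k : ℝ) * virt ≤ Cp * (S1 + virt) + k * (P0 + K) := by
      have := mul_le_mul_of_nonneg_left h7 hkpos.le
      nlinarith
    have h11 : (m : ℝ) ≤ virt := by exact_mod_cast hm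
    have h12 : (m : ℝ) * (k - Cp) ≤ virt * (k - Cp) :=
      mul_le_mul_of_nonneg_right h11 (by linarith)
    nlinarith
  obtain ⟨m, hm⟩ := exists_nat_gt ((k * (P0 + K) + Cp * S1) / (k - Cp))
  have h1 := main m
  have h2 : 0 < k - Cp := by linarith
  rw [div_lt_iff₀ h2] at hm
  linarith

theorem le_competitiveness (hk : 3 ≤ k) (s₀ : State (KV (k + 1)) k) :
    ((k : ℝ) : EReal) ≤ competitiveness (delayedA (KV (k + 1)) k) s₀ := by
  unfold competitiveness
  apply le_sInf
  rintro x ⟨C, hC, rfl⟩
  exact EReal.coe_le_coe_iff.mpr (no_better hk s₀ hC)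

end Q331.Del
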