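import Mathlib

/-!
# Online server problems: the `k`-server problem and the delayed `k`-server problem
-/

namespace Q331.Del

open Finset

/-- An online problem: the admissible steps `step s r s'` (in state `s` the request `r` arrives
and is served by passing to state `s'`) and the cost `cost s s'` of passing from `s` to `s'`. -/
structure Problem (S R : Type) where
  /-- admissible steps -/
  step : S → R → S → Prop
  /-- cost of a step -/
  cost : S → S → ℝ

/-- `Run P s₀ ρ s c`: the request sequence `ρ` can be served (offline) starting in `s₀`, ending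
in `s`, at total cost `c`. -/
inductive Run {S R : Type} (P : Problem S R) (s₀ : S) : List R → S → ℝ → Prop
  | nil : Run P s₀ [] s₀ 0
  | snoc {ρ : List R} {s : S} {c : ℝ} {r : R} {s' : S} :
      Run P s₀ ρ s c → P.step s r s' → Run P s₀ (ρ ++ [r]) s' (c + P.cost s s')

/-- The optimal offline cost of serving `ρ` from `s₀`. -/
noncomputable def opt {S R : Type} (P : Problem S R) (s₀ : S) (ρ : List R) : ℝ :=
  sInf {c : ℝ | ∃ s, Run P s₀ ρ s c}

/-- A deterministic online algorithm, given as the state `A ρ` it is in after having seen
exactly the requests `ρ`; every step has to be admissible. -/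
def IsAlg {S R : Type} (P : Problem S R) (s₀ : S) (A : List R → S) : Prop :=
  A [] = s₀ ∧ ∀ (ρ : List R) (r : R), P.step (A ρ) r (A (ρ ++ [r]))

/-- The cost of the online algorithm `A` on `ρ`. -/
noncomputable def algCost {S R : Type} (P : Problem S R) (A : List R → S) (ρ : List R) : ℝ :=
  ∑ i ∈ range ρ.length, P.cost (A (ρ.take i)) (A (ρ.take (i + 1)))

/-- Some deterministic online algorithm starting in `s₀` is `C`-competitive. -/
def Competitive {S R : Type} (P : Problem S R) (s₀ : S) (C : ℝ) : Prop :=
  ∃ A : List R → S, IsAlg P s₀ A ∧
    ∃ K : ℝ, ∀ ρ : List R, algCost P A ρ ≤ C * opt P s₀ ρ + K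

/-- The competitiveness: the infimum of the `C` for which some deterministic online algorithm
is `C`-competitive (`⊤` if there is none). -/
noncomputable def competitiveness {S R : Type} (P : Problem S R) (s₀ : S) : EReal :=
  sInf ((fun C : ℝ => (C : EReal)) '' {C : ℝ | Competitive P s₀ C})

/-- Total distance moved when the `k` servers go from the positions `c` to the positions `c'`. -/
noncomputable def moveCost {M : Type} [MetricSpace M] {k : ℕ} (c c' : Fin k → M) : ℝ :=
  ∑ i, dist (c i) (c' i)

/-- The ordinary `k`-server problem: a state is the tuple of the positions of the servers;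
after the request `r` some server must be at `r`. -/
noncomputable def kServer (M : Type) [MetricSpace M] (k : ℕ) : Problem (Fin k → M) M where
  step _ r c' := ∃ i, c' i = r
  cost c c' := moveCost c c'

/-- A state of the delayed problem: the positions of the servers and the frozen server. -/
structure State (M : Type) (k : ℕ) where
  /-- positions of the servers -/
  pos : Fin k → M
  /-- the frozen server -/
  frozen : Fin k

/-- The delayed `k`-server problem, version (a): the frozen server does not move; the server
that serves the request `r` (the frozen server of the next state) is at `r`. The frozen server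
may serve `r` again if it is at `r` already. -/
noncomputable def delayedA (M : Type) [MetricSpace M] (k : ℕ) : Problem (State M k) M where
  step s r s' := s'.pos s.frozen = s.pos s.frozen ∧ s'.pos s'.frozen = r
  cost s s' := moveCost s.pos s'.pos

/-- The delayed `k`-server problem, version (b): as version (a), but the server that served a
request may not serve the next one. -/
noncomputable def delayedB (M : Type) [MetricSpace M] (k : ℕ) : Problem (State M k) M where
  step s r s' := s'.pos s.frozen = s.pos s.frozen ∧ s'.pos s'.frozen = r ∧ s'.frozen ≠ s.frozen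
  cost s s' := moveCost s.pos s'.pos

/-! ### Basic facts -/

section Basic

variable {S R : Type} {P : Problem S R} {s₀ : S} {A : List R → S}

lemma algCost_nil : algCost P A [] = 0 := by simp [algCost]

lemma algCost_snoc (ρ : List R) (r : R) :
    algCost P A (ρ ++ [r]) = algCost P A ρ + P.cost (A ρ) (A (ρ ++ [r])) := by
  unfold algCost
  rw [List.length_append, List.length_singleton, sum_range_succ]
  congr 1
  · apply sum_congr rfl
    intro i hi
    have hi' : i < ρ.length := mem_range.mp hi
    rw [List.take_append_of_le_length (by omega), List.take_append_of_le_length (by omega)]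
  · rw [List.take_append_of_le_length (le_refl _), List.take_length]
    congr 2
    rw [List.take_of_length_le]
    simp

/-- An algorithm is itself a run. -/
lemma run_alg (hA : IsAlg P s₀ A) (ρ : List R) : Run P s₀ ρ (A ρ) (algCost P A ρ) := by
  induction ρ using List.reverseRecOn with
  | nil => rw [algCost_nil, hA.1]; exact Run.nil
  | append_singleton ρ r ih => rw [algCost_snoc]; exact Run.snoc ih (hA.2 ρ r)

lemma run_nonneg (hP : ∀ s s', 0 ≤ P.cost s s') {ρ : List R} {s : S} {c : ℝ}
    (h : Run P s₀ ρ s c) : 0 ≤ c := by
  induction h with
  | nil => exact le_refl _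
  | snoc _ _ ih => exact add_nonneg ih (hP _ _)

lemma opt_le (hP : ∀ s s', 0 ≤ P.cost s s') {ρ : List R} {s : S} {c : ℝ}
    (h : Run P s₀ ρ s c) : opt P s₀ ρ ≤ c :=
  csInf_le ⟨0, by rintro x ⟨s, hs⟩; exact run_nonneg hP hs⟩ ⟨s, h⟩

lemma opt_nonneg (hP : ∀ s s', 0 ≤ P.cost s s') (ρ : List R) : 0 ≤ opt P s₀ ρ := by
  apply Real.sInf_nonneg
  rintro x ⟨s, hs⟩
  exact run_nonneg hP hs

lemma moveCost_nonneg {M : Type} [MetricSpace M] {k : ℕ} (c c' : Fin k → M) :
    0 ≤ moveCost c c' := sum_nonneg fun _ _ => dist_nonneg

lemma delayedA_cost_nonneg {M : Type} [MetricSpace M] {k : ℕ} (s s' : State M k) :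
    0 ≤ (delayedA M k).cost s s' := moveCost_nonneg _ _

lemma delayedB_cost_nonneg {M : Type} [MetricSpace M] {k : ℕ} (s s' : State M k) :
    0 ≤ (delayedB M k).cost s s' := moveCost_nonneg _ _

lemma kServer_cost_nonneg {M : Type} [MetricSpace M] {k : ℕ} (s s' : Fin k → M) :
    0 ≤ (kServer M k).cost s s' := moveCost_nonneg _ _

end Basic

end Q331.Del
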