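import Pool.Agent.Q331.Del.Model

/-!
# Reduction of the delayed problem, version (a), to the ordinary `k`-server problem
-/

namespace Q331.Del

open Finset

/-- Strategies give algorithms. -/
lemma exists_alg {S R : Type} (P : Problem S R) (s₀ : S) (Q : List R → S → Prop)
    (G : List R → S → R → S → Prop) (h0 : Q [] s₀)
    (hs : ∀ ρ s r, Q ρ s → ∃ s', P.step s r s' ∧ Q (ρ ++ [r]) s' ∧ G ρ s r s') :
    ∃ A, IsAlg P s₀ A ∧ (∀ ρ, Q ρ (A ρ)) ∧ ∀ ρ r, G ρ (A ρ) r (A (ρ ++ [r])) := by
  classical
  -- recursion on the reversed list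
  let B : (l : List R) → {s : S // Q l.reverse s} := fun l =>
    List.rec (motive := fun l => {s : S // Q l.reverse s}) ⟨s₀, h0⟩
      (fun r l b => ⟨(hs l.reverse b.1 r b.2).choose, by
        rw [List.reverse_cons]; exact (hs l.reverse b.1 r b.2).choose_spec.2.1⟩) l
  have hQ : ∀ l ρ, l.reverse = ρ → Q ρ (B l).1 := by
    rintro l _ rfl; exact (B l).2
  have hG : ∀ l r ρ, l.reverse = ρ →
      P.step (B l).1 r (B (r :: l)).1 ∧ G ρ (B l).1 r (B (r :: l)).1 := by
    rintro l r _ rfl
    have h := (hs l.reverse (B l).1 r (B l).2).choose_spec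
    exact ⟨h.1, h.2.2⟩
  refine ⟨fun ρ => (B ρ.reverse).1, ⟨rfl, fun ρ r => ?_⟩, fun ρ => ?_, fun ρ r => ?_⟩
  · have e : (ρ ++ [r]).reverse = r :: ρ.reverse := by simp
    show P.step (B ρ.reverse).1 r (B (ρ ++ [r]).reverse).1
    rw [e]
    exact (hG ρ.reverse r ρ (List.reverse_reverse ρ)).1
  · exact hQ ρ.reverse ρ (List.reverse_reverse ρ)
  · have e : (ρ ++ [r]).reverse = r :: ρ.reverse := by simp
    show G ρ (B ρ.reverse).1 r (B (ρ ++ [r]).reverse).1
    rw [e]
    exact (hG ρ.reverse r ρ (List.reverse_reverse ρ)).2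

variable {M : Type} [MetricSpace M] {k : ℕ}

lemma moveCost_self' (e : Fin k → M) : moveCost e e = 0 := by
  unfold moveCost; simp

lemma moveCost_triangle (a b c : Fin k → M) : moveCost a c ≤ moveCost a b + moveCost b c := by
  unfold moveCost
  rw [← sum_add_distrib]
  exact sum_le_sum fun i _ => dist_triangle _ _ _

lemma moveCost_update' (e : Fin k → M) (i : Fin k) (y : M) :
    moveCost e (Function.update e i y) = dist (e i) y := by
  classical
  unfold moveCost
  rw [sum_eq_single i]
  · rw [Function.update_self]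
  · intro j _ hj
    rw [Function.update_of_ne hj, dist_self]
  · intro h; exact absurd (mem_univ _) h

lemma moveCost_update_left (e f : Fin k → M) (i : Fin k) (y : M) :
    moveCost (Function.update e i y) f = moveCost e f - dist (e i) (f i) + dist y (f i) := by
  classical
  unfold moveCost
  rw [← Finset.add_sum_erase univ _ (mem_univ i), ← Finset.add_sum_erase univ
    (fun j => dist (e j) (f j)) (mem_univ i), Function.update_self]
  have : ∑ x ∈ univ.erase i, dist (Function.update e i y x) (f x) =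
      ∑ x ∈ univ.erase i, dist (e x) (f x) := by
    apply sum_congr rfl
    intro j hj
    rw [Function.update_of_ne (ne_of_mem_erase hj)]
  rw [this]
  ring

/-- A lazy step of the ordinary problem. -/
def Lazy (c : Fin k → M) (r : M) (c' : Fin k → M) : Prop :=
  ((∃ i, c i = r) → c' = c) ∧ ((∀ i, c i ≠ r) → ∃ i, c' = Function.update c i r)

/-- Every algorithm for the ordinary problem may be made lazy. -/
lemma exists_lazy {X₀ : Fin k → M} {A : List M → Fin k → M} (hA : IsAlg (kServer M k) X₀ A) :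
    ∃ L, IsAlg (kServer M k) X₀ L ∧ (∀ ρ r, Lazy (L ρ) r (L (ρ ++ [r]))) ∧
      ∀ ρ, algCost (kServer M k) L ρ ≤ algCost (kServer M k) A ρ := by
  classical
  obtain ⟨L, hL1, -, hL3⟩ := exists_alg (kServer M k) X₀ (fun _ _ => True)
    (fun ρ s r s' => Lazy s r s' ∧ moveCost s s' + moveCost s' (A (ρ ++ [r])) ≤
      moveCost s (A (ρ ++ [r]))) trivial (by
    intro ρ s r _
    by_cases h : ∃ i, s i = r
    · refine ⟨s, h, trivial, ⟨fun _ => rfl, fun h' => ?_⟩, ?_⟩
      · obtain ⟨i, hi⟩ := h; exact absurd hi (h' i)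
      · rw [moveCost_self']; linarith
    · push Not at h
      obtain ⟨i, hi⟩ := hA.2 ρ r
      refine ⟨Function.update s i r, ⟨i, by simp⟩, trivial, ⟨fun h' => ?_, fun _ => ⟨i, rfl⟩⟩, ?_⟩
      · obtain ⟨j, hj⟩ := h'; exact absurd hj (h j)
      · rw [moveCost_update', moveCost_update_left, hi, dist_self]
        linarith)
  refine ⟨L, hL1, fun ρ r => (hL3 ρ r).1, fun ρ => ?_⟩
  have key : ∀ ρ, algCost (kServer M k) L ρ + moveCost (L ρ) (A ρ) ≤
      algCost (kServer M k) A ρ := by
    intro ρ
    induction ρ using List.reverseRecOn with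
    | nil =>
      rw [algCost_nil, algCost_nil, hL1.1, hA.1, moveCost_self']
      norm_num
    | append_singleton ρ r ih =>
      rw [algCost_snoc, algCost_snoc]
      have h1 := (hL3 ρ r).2
      have h2 := moveCost_triangle (L ρ) (A ρ) (A (ρ ++ [r]))
      show _ + moveCost (L ρ) (L (ρ ++ [r])) + _ ≤ _ + moveCost (A ρ) (A (ρ ++ [r]))
      linarith
  have := key ρ
  have h2 := moveCost_nonneg (L ρ) (A ρ)
  linarith

/-- The alternating request sequence `q, p, q, p, ...` with `2 n` terms. -/
def cyc (p q : M) : ℕ → List M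
  | 0 => []
  | n + 1 => cyc p q n ++ [q, p]

/-- An offline algorithm can go to a configuration covering `p` and `q` and stay. -/
lemma run_cyc {X₀ : Fin k → M} {h : List M} {x y : Fin k → M} {c : ℝ}
    (hr : Run (kServer M k) X₀ h x c) {p q : M} (hp : ∃ i, y i = p) (hq : ∃ i, y i = q) (n : ℕ) :
    Run (kServer M k) X₀ (h ++ cyc p q n ++ [q]) y (c + moveCost x y) := by
  induction n with
  | zero =>
    simp only [cyc, List.append_nil]
    exact Run.snoc hr hq
  | succ n ih =>
    have h1 : Run (kServer M k) X₀ ((h ++ cyc p q n ++ [q]) ++ [p]) y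
        (c + moveCost x y + moveCost y y) := Run.snoc ih hp
    have h2 : Run (kServer M k) X₀ (((h ++ cyc p q n ++ [q]) ++ [p]) ++ [q]) y
        (c + moveCost x y + moveCost y y + moveCost y y) := Run.snoc h1 hq
    rw [moveCost_self', add_zero, add_zero] at h2
    have e : h ++ cyc p q (n + 1) ++ [q] = ((h ++ cyc p q n ++ [q]) ++ [p]) ++ [q] := by
      simp [cyc]
    rw [e]
    exact h2

section lazyalg

variable {X₀ : Fin k → M} {L : List M → Fin k → M}

lemma lazy_last (hL : IsAlg (kServer M k) X₀ L) (ρ : List M) (r : M) :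
    ∃ i, L (ρ ++ [r]) i = r := hL.2 ρ r

lemma algCost_mono (P : Problem (Fin k → M) M) (hP : ∀ s s', 0 ≤ P.cost s s')
    (ρ : List M) (r : M) : algCost P L ρ ≤ algCost P L (ρ ++ [r]) := by
  rw [algCost_snoc]; have := hP (L ρ) (L (ρ ++ [r])); linarith

/-- Alternating requests force a competitive lazy algorithm to cover both points. -/
lemma exists_cover (hk : 2 ≤ k) (hL : IsAlg (kServer M k) X₀ L)
    (hlazy : ∀ ρ r, Lazy (L ρ) r (L (ρ ++ [r])))
    {C K : ℝ} (hC : ∀ ρ, algCost (kServer M k) L ρ ≤ C * opt (kServer M k) X₀ ρ + K)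
    (h : List M) {p q : M} (hpq : p ≠ q) (hp : ∃ i, L h i = p) :
    ∃ n, (∃ i, L (h ++ cyc p q n ++ [q]) i = p) ∧ ∃ i, L (h ++ cyc p q n ++ [q]) i = q := by
  classical
  by_contra hcon
  push Not at hcon
  have hq : ∀ n, ∃ i, L (h ++ cyc p q n ++ [q]) i = q := fun n => hL.2 _ _
  have hnp : ∀ n, ∀ i, L (h ++ cyc p q n ++ [q]) i ≠ p := by
    intro n i hi
    obtain ⟨j, hj⟩ := hq n
    exact hcon n ⟨i, hi⟩ j hj
  have hpn : ∀ n, ∃ i, L (h ++ cyc p q n) i = p := by
    intro n
    cases n with
    | zero => simpa [cyc] using hp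
    | succ n =>
      have e : h ++ cyc p q (n + 1) = (h ++ cyc p q n ++ [q]) ++ [p] := by simp [cyc]
      rw [e]; exact hL.2 _ _
  have hstep : ∀ n, algCost (kServer M k) L (h ++ cyc p q n) + dist p q ≤
      algCost (kServer M k) L (h ++ cyc p q n ++ [q]) := by
    intro n
    rw [algCost_snoc]
    have hl := hlazy (h ++ cyc p q n) q
    obtain ⟨i0, hi0⟩ := hpn n
    have hnq : ∀ i, L (h ++ cyc p q n) i ≠ q := by
      intro i hi
      have := hl.1 ⟨i, hi⟩
      exact hnp n i0 (by rw [this]; exact hi0)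
    obtain ⟨i, hi⟩ := hl.2 hnq
    have hii : i = i0 := by
      by_contra hne
      apply hnp n i0
      rw [hi, Function.update_of_ne (Ne.symm hne), hi0]
    have h1 : (kServer M k).cost (L (h ++ cyc p q n)) (L (h ++ cyc p q n ++ [q])) =
        dist p q := by
      show moveCost _ _ = _
      rw [hi, moveCost_update', hii, hi0]
    rw [h1]
  have hgrow : ∀ n : ℕ, (n : ℝ) * dist p q ≤ algCost (kServer M k) L (h ++ cyc p q n) := by
    intro n
    induction n with
    | zero =>
      simp only [Nat.cast_zero, zero_mul]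
      unfold algCost
      exact sum_nonneg fun _ _ => kServer_cost_nonneg _ _
    | succ n ih =>
      have e : h ++ cyc p q (n + 1) = (h ++ cyc p q n ++ [q]) ++ [p] := by simp [cyc]
      have h1 := hstep n
      have h2 : algCost (kServer M k) L (h ++ cyc p q n ++ [q]) ≤
          algCost (kServer M k) L ((h ++ cyc p q n ++ [q]) ++ [p]) :=
        algCost_mono _ kServer_cost_nonneg _ _
      rw [e]
      push_cast
      linarith
  -- the optimum stays bounded
  set i0 : Fin k := ⟨0, by omega⟩
  set i1 : Fin k := ⟨1, by omega⟩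
  have h01 : i0 ≠ i1 := by simp [i0, i1, Fin.ext_iff]
  set y : Fin k → M := fun i => if i = i0 then p else q with hy
  have hyp : ∃ i, y i = p := ⟨i0, by simp [hy]⟩
  have hyq : ∃ i, y i = q := ⟨i1, by simp [hy, Ne.symm h01]⟩
  set B : ℝ := algCost (kServer M k) L h + moveCost (L h) y with hB
  have hopt : ∀ n, opt (kServer M k) X₀ (h ++ cyc p q n ++ [q]) ≤ B := fun n =>
    opt_le kServer_cost_nonneg (run_cyc (run_alg hL h) hyp hyq n)
  have hopt0 : ∀ n, 0 ≤ opt (kServer M k) X₀ (h ++ cyc p q n ++ [q]) := fun n =>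
    opt_nonneg kServer_cost_nonneg _
  have hd : 0 < dist p q := dist_pos.mpr hpq
  obtain ⟨n, hn⟩ := exists_nat_gt ((|C| * B + K) / dist p q)
  rw [div_lt_iff₀ hd] at hn
  have h1 := hgrow n
  have h2 := hstep n
  have h3 := hC (h ++ cyc p q n ++ [q])
  have h4 : C * opt (kServer M k) X₀ (h ++ cyc p q n ++ [q]) ≤ |C| * B := by
    calc C * opt (kServer M k) X₀ (h ++ cyc p q n ++ [q])
        ≤ |C| * opt (kServer M k) X₀ (h ++ cyc p q n ++ [q]) :=
          mul_le_mul_of_nonneg_right (le_abs_self C) (hopt0 n)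
      _ ≤ |C| * B := mul_le_mul_of_nonneg_left (hopt n) (abs_nonneg C)
  linarith

open Classical in
/-- Number of alternations. -/
noncomputable def numCyc (L : List M → Fin k → M) (h : List M) (p q : M) : ℕ :=
  if H : ∃ n, (∃ i, L (h ++ cyc p q n ++ [q]) i = p) ∧ ∃ i, L (h ++ cyc p q n ++ [q]) i = q
  then H.choose else 0

lemma numCyc_spec (hk : 2 ≤ k) (hL : IsAlg (kServer M k) X₀ L)
    (hlazy : ∀ ρ r, Lazy (L ρ) r (L (ρ ++ [r])))
    {C K : ℝ} (hC : ∀ ρ, algCost (kServer M k) L ρ ≤ C * opt (kServer M k) X₀ ρ + K)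
    (h : List M) {p q : M} (hpq : p ≠ q) (hp : ∃ i, L h i = p) :
    (∃ i, L (h ++ cyc p q (numCyc L h p q) ++ [q]) i = p) ∧
      ∃ i, L (h ++ cyc p q (numCyc L h p q) ++ [q]) i = q := by
  have H := exists_cover hk hL hlazy hC h hpq hp
  unfold numCyc
  rw [dif_pos H]
  exact H.choose_spec

open Classical in
/-- One step of the expansion of the request sequence. -/
noncomputable def expStep (L : List M → Fin k → M) (s : List M × M) (r : M) : List M × M :=
  if r = s.2 then (s.1 ++ [r], r) else (s.1 ++ cyc s.2 r (numCyc L s.1 s.2 r) ++ [r], r)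

/-- The expanded request sequence (first component). -/
noncomputable def expand (L : List M → Fin k → M) (p₀ : M) (ρ : List M) : List M × M :=
  ρ.foldl (expStep L) ([], p₀)

lemma expand_snoc (L : List M → Fin k → M) (p₀ : M) (ρ : List M) (r : M) :
    expand L p₀ (ρ ++ [r]) = expStep L (expand L p₀ ρ) r := by
  unfold expand; rw [List.foldl_append]; rfl

lemma expStep_snd (L : List M → Fin k → M) (s : List M × M) (r : M) :
    (expStep L s r).2 = r := by
  unfold expStep; split_ifs <;> rfl

/-- The invariant of the expansion: the last point is covered. -/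
lemma expand_cover (hL : IsAlg (kServer M k) X₀ L) (f₀ : Fin k)
    (ρ : List M) :
    ∃ i, L (expand L (X₀ f₀) ρ).1 i = (expand L (X₀ f₀) ρ).2 := by
  induction ρ using List.reverseRecOn with
  | nil => exact ⟨f₀, by show L [] f₀ = X₀ f₀; rw [hL.1]⟩
  | append_singleton ρ r _ =>
    rw [expand_snoc]
    unfold expStep
    split_ifs with h
    · exact hL.2 _ _
    · exact hL.2 _ _

/-- Offline runs of the delayed problem give offline runs of the ordinary problem on the expanded
sequence. -/
lemma run_expand {f₀ : Fin k} {ρ : List M} {s : State M k} {c : ℝ}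
    (h : Run (delayedA M k) ⟨X₀, f₀⟩ ρ s c) :
    Run (kServer M k) X₀ (expand L (X₀ f₀) ρ).1 s.pos c ∧
      s.pos s.frozen = (expand L (X₀ f₀) ρ).2 := by
  induction h with
  | nil => exact ⟨Run.nil, rfl⟩
  | @snoc ρ s c r s' _ hstep ih =>
    obtain ⟨ih1, ih2⟩ := ih
    obtain ⟨hs1, hs2⟩ := hstep
    rw [expand_snoc]
    refine ⟨?_, by rw [expStep_snd]; exact hs2⟩
    unfold expStep
    split_ifs with h
    · exact Run.snoc ih1 ⟨s'.frozen, hs2⟩
    · exact run_cyc ih1 ⟨s.frozen, by rw [hs1, ih2]⟩ ⟨s'.frozen, hs2⟩ _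

lemma moveCost_le_algCost (hL : IsAlg (kServer M k) X₀ L) (h l : List M) :
    moveCost (L h) (L (h ++ l)) + algCost (kServer M k) L h ≤
      algCost (kServer M k) L (h ++ l) := by
  induction l using List.reverseRecOn with
  | nil => rw [List.append_nil, moveCost_self']; linarith
  | append_singleton l r ih =>
    rw [← List.append_assoc, algCost_snoc]
    have := moveCost_triangle (L h) (L (h ++ l)) (L (h ++ l ++ [r]))
    show _ ≤ _ + moveCost (L (h ++ l)) (L (h ++ l ++ [r]))
    linarith

/-- Exchange argument. -/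
lemma moveCost_swap (e e' : Fin k → M) {s u : Fin k} (h : e s = e' u) :
    moveCost e (e' ∘ (Equiv.swap s u)) ≤ moveCost e e' := by
  classical
  by_cases hsu : s = u
  · subst hsu; simp
  have e1 : e' ∘ (Equiv.swap s u) = Function.update (Function.update e' s (e' u)) u (e' s) := by
    funext l
    by_cases hl : l = u
    · subst hl; simp
    · rw [Function.update_of_ne hl]
      by_cases hl2 : l = s
      · subst hl2; simp
      · rw [Function.update_of_ne hl2, Function.comp_apply, Equiv.swap_apply_of_ne_of_ne hl2 hl]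
  have sym : ∀ a b : Fin k → M, moveCost a b = moveCost b a := by
    intro a b; unfold moveCost; exact sum_congr rfl fun i _ => dist_comm _ _
  rw [sym, e1, moveCost_update_left, moveCost_update_left, Function.update_of_ne (Ne.symm hsu),
    sym e' e, ← h, dist_self]
  have := dist_triangle (e' s) (e s) (e u)
  rw [h] at this ⊢
  have h2 : dist (e' u) (e u) = dist (e u) (e' u) := dist_comm _ _
  linarith

/-- **Reduction.** A `C`-competitive algorithm for the ordinary `k`-server problem gives a
`C`-competitive algorithm for the delayed problem, version (a). -/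
theorem delayedA_of_kServer (hk : 2 ≤ k) (X₀ : Fin k → M) (f₀ : Fin k) {C : ℝ}
    (hC : Competitive (kServer M k) X₀ C) : Competitive (delayedA M k) ⟨X₀, f₀⟩ C := by
  classical
  obtain ⟨A, hA, K, hAK⟩ := hC
  obtain ⟨L, hL, hlazy, hLA⟩ := exists_lazy hA
  have hLK : ∀ ρ, algCost (kServer M k) L ρ ≤ C * opt (kServer M k) X₀ ρ + K :=
    fun ρ => (hLA ρ).trans (hAK ρ)
  obtain ⟨D, hD, -, hDG⟩ := exists_alg (delayedA M k) ⟨X₀, f₀⟩
    (fun ρ s => (∃ σ : Equiv.Perm (Fin k), s.pos = L (expand L (X₀ f₀) ρ).1 ∘ σ) ∧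
      s.pos s.frozen = (expand L (X₀ f₀) ρ).2)
    (fun ρ s r s' => moveCost s.pos s'.pos + algCost (kServer M k) L (expand L (X₀ f₀) ρ).1 ≤
      algCost (kServer M k) L (expand L (X₀ f₀) (ρ ++ [r])).1)
    ⟨⟨1, by show X₀ = L [] ∘ _; rw [hL.1]; rfl⟩, rfl⟩ (by
      rintro ρ s r ⟨⟨σ, hσ⟩, hf⟩
      set h := (expand L (X₀ f₀) ρ).1 with hh
      set p := (expand L (X₀ f₀) ρ).2 with hp
      rw [expand_snoc]
      by_cases hrp : r = p
      · have e : expStep L (expand L (X₀ f₀) ρ) r = (h ++ [r], r) := by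
          unfold expStep; rw [if_pos hrp]
        rw [e]
        have hcov : ∃ i, L h i = r := ⟨σ s.frozen, by
          have : s.pos s.frozen = (L h ∘ σ) s.frozen := by rw [hσ]
          rw [hrp, ← hf, this]; rfl⟩
        have hl := (hlazy h r).1 hcov
        refine ⟨s, ⟨rfl, by rw [hf, hrp]⟩, ⟨⟨σ, ?_⟩, by rw [hf, hrp]⟩, ?_⟩
        · show s.pos = L (h ++ [r]) ∘ σ
          rw [hl, hσ]
        · show _ ≤ algCost _ L (h ++ [r])
          rw [moveCost_self', zero_add]
          exact algCost_mono _ kServer_cost_nonneg _ _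
      · set h' := h ++ cyc p r (numCyc L h p r) ++ [r] with hh'
        have e : expStep L (expand L (X₀ f₀) ρ) r = (h', r) := by
          unfold expStep; rw [if_neg hrp]
        rw [e]
        have hcov : ∃ i, L h i = p := expand_cover hL f₀ ρ
        obtain ⟨⟨u, hu⟩, ⟨v, hv⟩⟩ := numCyc_spec hk hL hlazy hLK h (Ne.symm hrp) hcov
        rw [← hh'] at hu hv
        have hs : L h (σ s.frozen) = p := by
          have : s.pos s.frozen = (L h ∘ σ) s.frozen := by rw [hσ]
          rw [← hf, this]; rfl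
        set τ : Equiv.Perm (Fin k) := Equiv.swap (σ s.frozen) u with hτ
        set E' : Fin k → M := L h' ∘ (σ.trans τ) with hE'
        have hE'f : E' s.frozen = p := by
          simp only [hE', Function.comp_apply, Equiv.trans_apply, hτ, Equiv.swap_apply_left]
          exact hu
        set f' : Fin k := (σ.trans τ).symm v with hf'
        have hE'f' : E' f' = r := by
          simp only [hE', hf', Function.comp_apply, Equiv.apply_symm_apply]
          exact hv
        refine ⟨⟨E', f'⟩, ⟨by show E' s.frozen = _; rw [hE'f, hf], hE'f'⟩,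
          ⟨⟨σ.trans τ, rfl⟩, hE'f'⟩, ?_⟩
        show moveCost s.pos E' + _ ≤ algCost _ L h'
        have c1 : moveCost s.pos E' = moveCost (L h) (L h' ∘ τ) := by
          unfold moveCost
          rw [hσ]
          exact Equiv.sum_comp σ (fun i => dist (L h i) ((L h' ∘ τ) i))
        have c2 : moveCost (L h) (L h' ∘ τ) ≤ moveCost (L h) (L h') :=
          moveCost_swap _ _ (by rw [hs, hu])
        have c3 : moveCost (L h) (L h') + algCost (kServer M k) L h ≤
            algCost (kServer M k) L h' := by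
          have := moveCost_le_algCost hL h (cyc p r (numCyc L h p r) ++ [r])
          rwa [← List.append_assoc] at this
        linarith)
  have hcost : ∀ ρ, algCost (delayedA M k) D ρ ≤
      algCost (kServer M k) L (expand L (X₀ f₀) ρ).1 := by
    intro ρ
    induction ρ using List.reverseRecOn with
    | nil => rw [algCost_nil]; exact le_of_eq (by show 0 = algCost _ L []; rw [algCost_nil])
    | append_singleton ρ r ih =>
      rw [algCost_snoc]
      have := hDG ρ r
      show _ + moveCost (D ρ).pos (D (ρ ++ [r])).pos ≤ _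
      linarith
  have hopt : ∀ ρ, opt (kServer M k) X₀ (expand L (X₀ f₀) ρ).1 ≤
      opt (delayedA M k) ⟨X₀, f₀⟩ ρ := by
    intro ρ
    have hne : {c : ℝ | ∃ s, Run (delayedA M k) ⟨X₀, f₀⟩ ρ s c}.Nonempty :=
      ⟨_, _, run_alg hD ρ⟩
    apply le_csInf hne
    rintro c ⟨s, hs⟩
    exact opt_le kServer_cost_nonneg (run_expand hs).1
  by_cases hC0 : 0 ≤ C
  · refine ⟨D, hD, K, fun ρ => ?_⟩
    have h1 := hcost ρ
    have h2 := hLK (expand L (X₀ f₀) ρ).1
    have h3 := mul_le_mul_of_nonneg_left (hopt ρ) hC0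
    linarith
  · push Not at hC0
    refine ⟨D, hD, K - C * K, fun ρ => ?_⟩
    have h1 := hcost ρ
    have h2 := hLK (expand L (X₀ f₀) ρ).1
    have h3 : C * opt (kServer M k) X₀ (expand L (X₀ f₀) ρ).1 ≤ 0 :=
      mul_nonpos_of_nonpos_of_nonneg hC0.le (opt_nonneg kServer_cost_nonneg _)
    have h4 : algCost (delayedA M k) D ρ ≤ K := by linarith
    have h5 : opt (delayedA M k) ⟨X₀, f₀⟩ ρ ≤ K :=
      (opt_le delayedA_cost_nonneg (run_alg hD ρ)).trans h4
    have h6 : C * K ≤ C * opt (delayedA M k) ⟨X₀, f₀⟩ ρ :=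
      mul_le_mul_of_nonpos_left h5 hC0.le
    linarith

end lazyalg

end Q331.Del
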