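import Pool.Agent.Q331.Del.Red

/-!
# Reduction of version (b) in `M` to version (a) in a space `N` containing `M`, in which the
points of `M` are not isolated
-/

namespace Q331.Del

open Finset

variable {M N : Type} [MetricSpace M] [MetricSpace N] {k : ℕ}

open Classical in
/-- The point of `N` requested instead of `r`: it is `ι r` if the last request was different,
and otherwise a point near `ι r`. -/
noncomputable def near (ι : M → N) (p : N) (r : M) (ε : ℝ) : N :=
  if ι r ≠ p then ι r else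
    if H : ∃ y : N, y ≠ ι r ∧ dist y (ι r) ≤ ε then H.choose else ι r

lemma near_ne {ι : M → N} (hacc : ∀ x : M, ∀ ε > 0, ∃ y : N, y ≠ ι x ∧ dist y (ι x) < ε)
    (p : N) (r : M) {ε : ℝ} (hε : 0 < ε) : near ι p r ε ≠ p := by
  classical
  unfold near
  by_cases h : ι r ≠ p
  · rw [if_pos h]; exact h
  · rw [if_neg h]
    push Not at h
    have H : ∃ y : N, y ≠ ι r ∧ dist y (ι r) ≤ ε := by
      obtain ⟨y, hy1, hy2⟩ := hacc r ε hε
      exact ⟨y, hy1, hy2.le⟩
    rw [dif_pos H, ← h]
    exact H.choose_spec.1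

lemma near_dist {ι : M → N} (hacc : ∀ x : M, ∀ ε > 0, ∃ y : N, y ≠ ι x ∧ dist y (ι x) < ε)
    (p : N) (r : M) {ε : ℝ} (hε : 0 < ε) : dist (near ι p r ε) (ι r) ≤ ε := by
  classical
  unfold near
  by_cases h : ι r ≠ p
  · rw [if_pos h, dist_self]; exact hε.le
  · rw [if_neg h]
    have H : ∃ y : N, y ≠ ι r ∧ dist y (ι r) ≤ ε := by
      obtain ⟨y, hy1, hy2⟩ := hacc r ε hε
      exact ⟨y, hy1, hy2.le⟩
    rw [dif_pos H]
    exact H.choose_spec.2

/-- The translated request sequence and its last point. -/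
noncomputable def trans (ι : M → N) (p₀ : N) (ρ : List M) : List N × N :=
  ρ.foldl (fun s r => (s.1 ++ [near ι s.2 r ((1 / 2) ^ (s.1.length + 1))],
    near ι s.2 r ((1 / 2) ^ (s.1.length + 1)))) ([], p₀)

lemma trans_snoc (ι : M → N) (p₀ : N) (ρ : List M) (r : M) :
    trans ι p₀ (ρ ++ [r]) = ((trans ι p₀ ρ).1 ++ [near ι (trans ι p₀ ρ).2 r
      ((1 / 2) ^ ((trans ι p₀ ρ).1.length + 1))], near ι (trans ι p₀ ρ).2 r
      ((1 / 2) ^ ((trans ι p₀ ρ).1.length + 1))) := by
  unfold trans
  rw [List.foldl_append]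
  rfl

lemma trans_length (ι : M → N) (p₀ : N) (ρ : List M) :
    (trans ι p₀ ρ).1.length = ρ.length := by
  induction ρ using List.reverseRecOn with
  | nil => rfl
  | append_singleton ρ r ih => rw [trans_snoc]; simp [ih]

/-- The requested point. -/
noncomputable def nxt (ι : M → N) (p₀ : N) (ρ : List M) (r : M) : N :=
  near ι (trans ι p₀ ρ).2 r ((1 / 2) ^ (ρ.length + 1))

lemma trans_snoc' (ι : M → N) (p₀ : N) (ρ : List M) (r : M) :
    trans ι p₀ (ρ ++ [r]) = ((trans ι p₀ ρ).1 ++ [nxt ι p₀ ρ r], nxt ι p₀ ρ r) := by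
  rw [trans_snoc, trans_length]; rfl

/-- Total error after `t` steps. -/
noncomputable def err (t : ℕ) : ℝ := 2 - 2 * (1 / 2) ^ t

lemma err_succ (t : ℕ) : err (t + 1) = err t + 2 * (1 / 2) ^ (t + 1) := by
  unfold err; ring

lemma err_le (t : ℕ) : err t ≤ 2 := by
  unfold err
  have : (0 : ℝ) ≤ 2 * (1 / 2) ^ t := by positivity
  linarith

section main

variable {ι : M → N}

/-- Deviation between a configuration in `M` and one in `N`. -/
noncomputable def dev (ι : M → N) (e : Fin k → M) (e' : Fin k → N) : ℝ :=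
  ∑ i, dist (ι (e i)) (e' i)

lemma dev_update (e : Fin k → M) (e' : Fin k → N) (i : Fin k) (y : M) :
    dev ι (Function.update e i y) e' =
      dev ι e e' - dist (ι (e i)) (e' i) + dist (ι y) (e' i) := by
  classical
  unfold dev
  rw [← Finset.add_sum_erase univ _ (mem_univ i), ← Finset.add_sum_erase univ
    (fun j => dist (ι (e j)) (e' j)) (mem_univ i), Function.update_self]
  have : ∑ x ∈ univ.erase i, dist (ι (Function.update e i y x)) (e' x) =
      ∑ x ∈ univ.erase i, dist (ι (e x)) (e' x) := by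
    apply sum_congr rfl
    intro j hj
    rw [Function.update_of_ne (ne_of_mem_erase hj)]
  rw [this]
  ring

lemma dev_move (e : Fin k → M) (a b : Fin k → N) : dev ι e b ≤ dev ι e a + moveCost a b := by
  unfold dev moveCost
  rw [← sum_add_distrib]
  exact sum_le_sum fun i _ => dist_triangle _ _ _

/-- Offline runs of version (b) in `M` are followed in `N`. -/
lemma run_trans (hι : ∀ x y, dist (ι x) (ι y) = dist x y)
    (hacc : ∀ x : M, ∀ ε > 0, ∃ y : N, y ≠ ι x ∧ dist y (ι x) < ε)
    {X₀ : Fin k → M} {f₀ : Fin k} {ρ : List M} {s : State M k} {c : ℝ}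
    (h : Run (delayedB M k) ⟨X₀, f₀⟩ ρ s c) :
    ∃ (s' : State N k) (c' : ℝ), Run (delayedA N k) ⟨ι ∘ X₀, f₀⟩ (trans ι (ι (X₀ f₀)) ρ).1 s' c' ∧
      s'.frozen = s.frozen ∧ s'.pos s.frozen = (trans ι (ι (X₀ f₀)) ρ).2 ∧
      c' + dev ι s.pos s'.pos ≤ c + err ρ.length := by
  classical
  induction h with
  | nil =>
    refine ⟨_, 0, Run.nil, rfl, rfl, ?_⟩
    simp [dev, err]
  | @snoc ρ s c r t _ hstep ih =>
    obtain ⟨s', c', hrun, hf, hp, hc⟩ := ih
    obtain ⟨ht1, ht2, ht3⟩ := hstep
    set n := nxt ι (ι (X₀ f₀)) ρ r with hn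
    set ε : ℝ := (1 / 2) ^ (ρ.length + 1) with hε
    have hε0 : 0 < ε := by positivity
    have hnr : dist n (ι r) ≤ ε := near_dist hacc _ _ hε0
    -- the new configuration in `N`
    set e : Fin k → N := fun i => if i = t.frozen then n else
      if i = s.frozen then s'.pos i else ι (t.pos i) with he
    have e1 : e t.frozen = n := by simp [he]
    have e2 : e s.frozen = s'.pos s.frozen := by simp [he, Ne.symm ht3]
    refine ⟨⟨e, t.frozen⟩, c' + moveCost s'.pos e, ?_, rfl, ?_, ?_⟩
    · rw [trans_snoc']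
      refine Run.snoc hrun ⟨?_, ?_⟩
      · show e s'.frozen = s'.pos s'.frozen
        rw [hf]; exact e2
      · exact e1
    · rw [trans_snoc']; exact e1
    · -- the cost
      have hlen : (ρ ++ [r]).length = ρ.length + 1 := by simp
      rw [hlen, err_succ]
      have key : ∀ i, dist (s'.pos i) (e i) + dist (ι (t.pos i)) (e i) ≤
          dist (ι (s.pos i)) (s'.pos i) + dist (s.pos i) (t.pos i) +
            (if i = t.frozen then 2 * ε else 0) := by
        intro i
        by_cases hi : i = t.frozen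
        · subst hi
          rw [e1, if_pos rfl, ht2]
          have a1 := dist_triangle (s'.pos t.frozen) (ι (s.pos t.frozen)) n
          have a2 := dist_triangle (ι (s.pos t.frozen)) (ι r) n
          rw [hι] at a2
          rw [dist_comm (ι r) n] at a2 ⊢
          rw [dist_comm (s'.pos t.frozen) (ι (s.pos t.frozen))] at a1
          linarith
        · rw [if_neg hi]
          by_cases hi2 : i = s.frozen
          · subst hi2
            rw [e2, ht1, dist_self, dist_self]
            linarith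
          · have e3 : e i = ι (t.pos i) := by simp [he, hi, hi2]
            rw [e3, dist_self]
            have a1 := dist_triangle (s'.pos i) (ι (s.pos i)) (ι (t.pos i))
            rw [hι, dist_comm (s'.pos i) (ι (s.pos i))] at a1
            linarith
      have hsum : ∑ i, (dist (s'.pos i) (e i) + dist (ι (t.pos i)) (e i)) ≤
          ∑ i, (dist (ι (s.pos i)) (s'.pos i) + dist (s.pos i) (t.pos i) +
            (if i = t.frozen then 2 * ε else 0)) := sum_le_sum fun i _ => key i
      rw [sum_add_distrib, sum_add_distrib, sum_add_distrib, Finset.sum_ite_eq' univ t.frozen,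
        if_pos (mem_univ _)] at hsum
      show c' + moveCost s'.pos e + dev ι t.pos e ≤ c + moveCost s.pos t.pos + _
      unfold dev moveCost at *
      linarith

/-- **Reduction** of version (b) in `M` to version (a) in `N`. -/
theorem delayedB_of_delayedA (hι : ∀ x y, dist (ι x) (ι y) = dist x y)
    (hacc : ∀ x : M, ∀ ε > 0, ∃ y : N, y ≠ ι x ∧ dist y (ι x) < ε)
    (X₀ : Fin k → M) (f₀ : Fin k) {C : ℝ}
    (hC : Competitive (delayedA N k) ⟨ι ∘ X₀, f₀⟩ C) :
    Competitive (delayedB M k) ⟨X₀, f₀⟩ C := by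
  classical
  obtain ⟨A, hA, K, hAK⟩ := hC
  set p₀ : N := ι (X₀ f₀) with hp₀
  have hlast : ∀ ρ : List M, (A (trans ι p₀ ρ).1).pos (A (trans ι p₀ ρ).1).frozen =
      (trans ι p₀ ρ).2 := by
    intro ρ
    induction ρ using List.reverseRecOn with
    | nil =>
      show (A []).pos (A []).frozen = p₀
      rw [hA.1]; rfl
    | append_singleton ρ r _ => rw [trans_snoc']; exact (hA.2 _ _).2
  obtain ⟨D, hD, hDQ, hDG⟩ := exists_alg (delayedB M k) ⟨X₀, f₀⟩
    (fun ρ s => s.frozen = (A (trans ι p₀ ρ).1).frozen)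
    (fun ρ s r s' => moveCost s.pos s'.pos + dev ι s'.pos (A (trans ι p₀ (ρ ++ [r])).1).pos ≤
      moveCost (A (trans ι p₀ ρ).1).pos (A (trans ι p₀ (ρ ++ [r])).1).pos +
        dev ι s.pos (A (trans ι p₀ ρ).1).pos + 2 * (1 / 2) ^ (ρ.length + 1))
    (by show f₀ = (A []).frozen; rw [hA.1]) (by
      intro ρ s r hs
      obtain ⟨h1, h2⟩ := hA.2 (trans ι p₀ ρ).1 (nxt ι p₀ ρ r)
      have hl := hlast ρ
      have htr : (trans ι p₀ (ρ ++ [r])).1 = (trans ι p₀ ρ).1 ++ [nxt ι p₀ ρ r] := by
        rw [trans_snoc']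
      rw [← htr] at h1 h2
      set a := A (trans ι p₀ ρ).1 with ha
      set a' := A (trans ι p₀ (ρ ++ [r])).1 with ha'
      set ε : ℝ := (1 / 2) ^ (ρ.length + 1) with hε
      have hε0 : 0 < ε := by positivity
      have hne : nxt ι p₀ ρ r ≠ (trans ι p₀ ρ).2 := near_ne hacc _ _ hε0
      have hnr : dist (nxt ι p₀ ρ r) (ι r) ≤ ε := near_dist hacc _ _ hε0
      have hff : a'.frozen ≠ s.frozen := by
        rw [hs]
        intro e
        rw [e, h1, hl] at h2
        exact hne h2.symm
      refine ⟨⟨Function.update s.pos a'.frozen r, a'.frozen⟩, ⟨?_, ?_, hff⟩, rfl, ?_⟩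
      · show Function.update s.pos a'.frozen r s.frozen = _
        rw [Function.update_of_ne (Ne.symm hff)]
      · show Function.update s.pos a'.frozen r a'.frozen = r
        rw [Function.update_self]
      · show moveCost s.pos (Function.update s.pos a'.frozen r) +
          dev ι (Function.update s.pos a'.frozen r) a'.pos ≤ _
        rw [moveCost_update', dev_update, h2]
        have b1 := dev_move (ι := ι) s.pos a.pos a'.pos
        have b2 := dist_triangle (ι (s.pos a'.frozen)) (nxt ι p₀ ρ r) (ι r)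
        rw [hι] at b2
        rw [dist_comm (ι r) (nxt ι p₀ ρ r)]
        linarith)
  have hcost : ∀ ρ, algCost (delayedB M k) D ρ + dev ι (D ρ).pos (A (trans ι p₀ ρ).1).pos ≤
      algCost (delayedA N k) A (trans ι p₀ ρ).1 + err ρ.length := by
    intro ρ
    induction ρ using List.reverseRecOn with
    | nil =>
      rw [algCost_nil]
      show 0 + dev ι (D []).pos (A []).pos ≤ algCost _ A [] + err 0
      rw [algCost_nil, hD.1, hA.1]
      simp [dev, err]
    | append_singleton ρ r ih =>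
      have h := hDG ρ r
      have htr : (trans ι p₀ (ρ ++ [r])).1 = (trans ι p₀ ρ).1 ++ [nxt ι p₀ ρ r] := by
        rw [trans_snoc']
      have hlen : (ρ ++ [r]).length = ρ.length + 1 := by simp
      rw [algCost_snoc, hlen, err_succ]
      have h2 : algCost (delayedA N k) A (trans ι p₀ (ρ ++ [r])).1 =
          algCost (delayedA N k) A (trans ι p₀ ρ).1 +
          moveCost (A (trans ι p₀ ρ).1).pos (A (trans ι p₀ (ρ ++ [r])).1).pos := by
        rw [htr, algCost_snoc]; rfl
      rw [h2]
      show _ + moveCost (D ρ).pos (D (ρ ++ [r])).pos + _ ≤ _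
      linarith
  have hdev : ∀ (e : Fin k → M) (e' : Fin k → N), 0 ≤ dev ι e e' :=
    fun e e' => sum_nonneg fun _ _ => dist_nonneg
  have hopt : ∀ ρ, opt (delayedA N k) ⟨ι ∘ X₀, f₀⟩ (trans ι p₀ ρ).1 ≤
      opt (delayedB M k) ⟨X₀, f₀⟩ ρ + 2 := by
    intro ρ
    have hne : {c : ℝ | ∃ s, Run (delayedB M k) ⟨X₀, f₀⟩ ρ s c}.Nonempty :=
      ⟨_, _, run_alg hD ρ⟩
    rw [← sub_le_iff_le_add]
    apply le_csInf hne
    rintro c ⟨s, hs⟩
    obtain ⟨s', c', hrun, -, -, hc⟩ := run_trans hι hacc hs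
    have h1 := opt_le delayedA_cost_nonneg hrun
    have h2 := err_le ρ.length
    have h3 := hdev s.pos s'.pos
    rw [hp₀]
    linarith
  by_cases hC0 : 0 ≤ C
  · refine ⟨D, hD, K + 2 * C + 2, fun ρ => ?_⟩
    have h1 := hcost ρ
    have h2 := hAK (trans ι p₀ ρ).1
    have h3 := mul_le_mul_of_nonneg_left (hopt ρ) hC0
    have h4 := err_le ρ.length
    have h5 := hdev (D ρ).pos (A (trans ι p₀ ρ).1).pos
    linarith
  · push Not at hC0
    refine ⟨D, hD, (K + 2) - C * (K + 2), fun ρ => ?_⟩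
    have h1 := hcost ρ
    have h2 := hAK (trans ι p₀ ρ).1
    have h3 : C * opt (delayedA N k) ⟨ι ∘ X₀, f₀⟩ (trans ι p₀ ρ).1 ≤ 0 :=
      mul_nonpos_of_nonpos_of_nonneg hC0.le (opt_nonneg delayedA_cost_nonneg _)
    have h4 := err_le ρ.length
    have h5 := hdev (D ρ).pos (A (trans ι p₀ ρ).1).pos
    have h6 : algCost (delayedB M k) D ρ ≤ K + 2 := by linarith
    have h7 : opt (delayedB M k) ⟨X₀, f₀⟩ ρ ≤ K + 2 :=
      (opt_le delayedB_cost_nonneg (run_alg hD ρ)).trans h6
    have h8 : C * (K + 2) ≤ C * opt (delayedB M k) ⟨X₀, f₀⟩ ρ :=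
      mul_le_mul_of_nonpos_left h7 hC0.le
    linarith

end main

end Q331.Del
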