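import Pool.Agent.Q331.Del.Red

/-!
# Version (b) with three servers on a three-point uniform space
-/

namespace Q331.Del

open Finset

/-- The uniform metric space with three points. -/
def U3 : Type := Fin 3

instance : DecidableEq U3 := inferInstanceAs (DecidableEq (Fin 3))
instance : Fintype U3 := inferInstanceAs (Fintype (Fin 3))

/-- Distance `0` or `1`. -/
def du (x y : U3) : ℤ := if x = y then 0 else 1

noncomputable instance : MetricSpace U3 where
  dist x y := (du x y : ℝ)
  dist_self x := by simp [du]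
  dist_comm x y := by
    by_cases h : x = y
    · simp [du, h]
    · simp [du, h, Ne.symm h]
  dist_triangle x y z := by
    unfold du
    by_cases h : x = y
    · subst h; simp
    · by_cases h2 : y = z
      · subst h2; simp [h]
      · rw [if_neg h, if_neg h2]
        split_ifs <;> norm_num
  eq_of_dist_eq_zero := by
    intro x y h
    by_contra hne
    have : ((du x y : ℤ) : ℝ) = 0 := h
    simp [du, hne] at this

lemma dist_u3 (x y : U3) : dist x y = (du x y : ℝ) := rfl

lemma du_nonneg (x y : U3) : 0 ≤ du x y := by unfold du; split_ifs <;> norm_num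
lemma du_le_one (x y : U3) : du x y ≤ 1 := by unfold du; split_ifs <;> norm_num

/-- Three distinct indices exhaust `Fin 3`. -/
lemma three_cases : ∀ f g e i : Fin 3, f ≠ g → f ≠ e → g ≠ e → i = f ∨ i = g ∨ i = e := by
  decide

/-- `s` has its frozen server at `q`, and the other two at `p` and `x`; the first of them is
`g`. -/
def Pos (s : State U3 3) (p q x : U3) : Prop :=
  ∃ g e : Fin 3, s.frozen ≠ g ∧ s.frozen ≠ e ∧ g ≠ e ∧ s.pos s.frozen = q ∧ s.pos g = p ∧
    s.pos e = x

/-- Offline invariant. -/
def Off (s₀ : State U3 3) (ρ : List U3) (p q : U3) (w : U3 → ℤ) : Prop :=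
  ∀ y, ∃ s c, Run (delayedB U3 3) s₀ ρ s c ∧ c ≤ (w y : ℝ) ∧ Pos s p q y

lemma moveCost_two {s : State U3 3} {g e : Fin 3} (h1 : s.frozen ≠ g) (h2 : s.frozen ≠ e)
    (h3 : g ≠ e) (a b : U3) :
    moveCost s.pos (Function.update (Function.update s.pos g a) e b) =
      dist (s.pos g) a + dist (s.pos e) b := by
  have h := moveCost_update_left (s.pos) (s.pos) e b
  have sym : ∀ a b : Fin 3 → U3, moveCost a b = moveCost b a := by
    intro a b; unfold moveCost; exact sum_congr rfl fun i _ => dist_comm _ _
  rw [sym, moveCost_update_left, moveCost_update_left, moveCost_self', dist_self,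
    Function.update_of_ne (Ne.symm h3), dist_self]
  rw [dist_comm a, dist_comm b]
  ring

lemma off_step {s₀ : State U3 3} {ρ : List U3} {p q : U3} {w w' : U3 → ℤ} (r : U3)
    (H : Off s₀ ρ p q w)
    (hw : ∀ y, ∃ z, w z + du z y + du p r ≤ w' y ∨ w z + du z r + du p y ≤ w' y) :
    Off s₀ (ρ ++ [r]) q r w' := by
  intro y
  obtain ⟨z, hz⟩ := hw y
  obtain ⟨s, c, hrun, hc, g, e, h1, h2, h3, h4, h5, h6⟩ := H z
  rcases hz with hz | hz
  · refine ⟨⟨Function.update (Function.update s.pos g r) e y, g⟩, _, Run.snoc hrun ⟨?_, ?_, ?_⟩,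
      ?_, s.frozen, e, ?_, ?_, ?_, ?_, ?_, ?_⟩
    · show Function.update (Function.update s.pos g r) e y s.frozen = _
      rw [Function.update_of_ne h2, Function.update_of_ne h1]
    · show Function.update (Function.update s.pos g r) e y g = r
      rw [Function.update_of_ne h3, Function.update_self]
    · exact Ne.symm h1
    · show c + moveCost s.pos _ ≤ _
      rw [moveCost_two h1 h2 h3, h5, h6, dist_u3, dist_u3]
      have : ((w z + du z y + du p r : ℤ) : ℝ) ≤ (w' y : ℝ) := by exact_mod_cast hz
      push_cast at this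
      linarith
    · exact Ne.symm h1
    · exact h3
    · exact h2
    · show Function.update (Function.update s.pos g r) e y g = r
      rw [Function.update_of_ne h3, Function.update_self]
    · show Function.update (Function.update s.pos g r) e y s.frozen = _
      rw [Function.update_of_ne h2, Function.update_of_ne h1, h4]
    · show Function.update (Function.update s.pos g r) e y e = _
      rw [Function.update_self]
  · refine ⟨⟨Function.update (Function.update s.pos g y) e r, e⟩, _, Run.snoc hrun ⟨?_, ?_, ?_⟩,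
      ?_, s.frozen, g, ?_, ?_, ?_, ?_, ?_, ?_⟩
    · show Function.update (Function.update s.pos g y) e r s.frozen = _
      rw [Function.update_of_ne h2, Function.update_of_ne h1]
    · show Function.update (Function.update s.pos g y) e r e = r
      rw [Function.update_self]
    · exact Ne.symm h2
    · show c + moveCost s.pos _ ≤ _
      rw [moveCost_two h1 h2 h3, h5, h6, dist_u3, dist_u3]
      have : ((w z + du z r + du p y : ℤ) : ℝ) ≤ (w' y : ℝ) := by exact_mod_cast hz
      push_cast at this
      linarith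
    · exact Ne.symm h2
    · exact Ne.symm h3
    · exact h1
    · show Function.update (Function.update s.pos g y) e r e = r
      rw [Function.update_self]
    · show Function.update (Function.update s.pos g y) e r s.frozen = _
      rw [Function.update_of_ne h2, Function.update_of_ne h1, h4]
    · show Function.update (Function.update s.pos g y) e r g = _
      rw [Function.update_of_ne h3, Function.update_self]

/-- A lazy version of an online algorithm for version (b). -/
lemma exists_lazyB {M : Type} [MetricSpace M] {k : ℕ} {s₀ : State M k}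
    {A : List M → State M k} (hA : IsAlg (delayedB M k) s₀ A) :
    ∃ L, IsAlg (delayedB M k) s₀ L ∧
      (∀ ρ r, (L (ρ ++ [r])).pos = Function.update (L ρ).pos (L (ρ ++ [r])).frozen r) ∧
      ∀ ρ, algCost (delayedB M k) L ρ ≤ algCost (delayedB M k) A ρ := by
  classical
  obtain ⟨L, hL1, hL2, hL3⟩ := exists_alg (delayedB M k) s₀
    (fun ρ s => s.frozen = (A ρ).frozen)
    (fun ρ s r s' => s'.pos = Function.update s.pos s'.frozen r ∧
      moveCost s.pos s'.pos + moveCost s'.pos (A (ρ ++ [r])).pos ≤
      moveCost s.pos (A (ρ ++ [r])).pos) (by rw [hA.1]) (by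
    intro ρ s r hs
    obtain ⟨h1, h2, h3⟩ := hA.2 ρ r
    refine ⟨⟨Function.update s.pos (A (ρ ++ [r])).frozen r, (A (ρ ++ [r])).frozen⟩,
      ⟨?_, ?_, ?_⟩, rfl, rfl, ?_⟩
    · show Function.update s.pos (A (ρ ++ [r])).frozen r s.frozen = _
      rw [Function.update_of_ne (by rw [hs]; exact Ne.symm h3)]
    · show Function.update s.pos (A (ρ ++ [r])).frozen r (A (ρ ++ [r])).frozen = r
      rw [Function.update_self]
    · show (A (ρ ++ [r])).frozen ≠ s.frozen
      rw [hs]; exact h3
    · show moveCost s.pos (Function.update s.pos (A (ρ ++ [r])).frozen r) +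
        moveCost (Function.update s.pos (A (ρ ++ [r])).frozen r) (A (ρ ++ [r])).pos ≤ _
      rw [moveCost_update', moveCost_update_left, h2, dist_self]
      linarith)
  refine ⟨L, hL1, fun ρ r => (hL3 ρ r).1, fun ρ => ?_⟩
  have key : ∀ ρ, algCost (delayedB M k) L ρ + moveCost (L ρ).pos (A ρ).pos ≤
      algCost (delayedB M k) A ρ := by
    intro ρ
    induction ρ using List.reverseRecOn with
    | nil =>
      rw [algCost_nil, algCost_nil, hL1.1, hA.1, moveCost_self']
      norm_num
    | append_singleton ρ r ih =>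
      rw [algCost_snoc, algCost_snoc]
      have h1 := (hL3 ρ r).2
      have h2 := moveCost_triangle (L ρ).pos (A ρ).pos (A (ρ ++ [r])).pos
      show _ + moveCost (L ρ).pos (L (ρ ++ [r])).pos + _ ≤
        _ + moveCost (A ρ).pos (A (ρ ++ [r])).pos
      linarith
  have := key ρ
  have h2 := moveCost_nonneg (L ρ).pos (A ρ).pos
  linarith

lemma on_step {s₀ : State U3 3} {L : List U3 → State U3 3} (hL : IsAlg (delayedB U3 3) s₀ L)
    (hlazy : ∀ ρ r, (L (ρ ++ [r])).pos = Function.update (L ρ).pos (L (ρ ++ [r])).frozen r)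
    {ρ : List U3} {p q x : U3} (H : Pos (L ρ) p q x) (r : U3) :
    (Pos (L (ρ ++ [r])) q r x ∧
      algCost (delayedB U3 3) L (ρ ++ [r]) = algCost (delayedB U3 3) L ρ + du p r) ∨
    (Pos (L (ρ ++ [r])) q r p ∧
      algCost (delayedB U3 3) L (ρ ++ [r]) = algCost (delayedB U3 3) L ρ + du x r) := by
  obtain ⟨g, e, h1, h2, h3, h4, h5, h6⟩ := H
  obtain ⟨a1, a2, a3⟩ := hL.2 ρ r
  have hl := hlazy ρ r
  have hcost : algCost (delayedB U3 3) L (ρ ++ [r]) = algCost (delayedB U3 3) L ρ +
      dist ((L ρ).pos (L (ρ ++ [r])).frozen) r := by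
    rw [algCost_snoc]
    show _ + moveCost (L ρ).pos (L (ρ ++ [r])).pos = _
    rw [hl, moveCost_update']
  set f' := (L (ρ ++ [r])).frozen with hf'
  rcases three_cases (L ρ).frozen g e f' h1 h2 h3 with h | h | h
  · exact absurd h a3
  · left
    refine ⟨⟨(L ρ).frozen, e, ?_, ?_, h2, a2, ?_, ?_⟩, ?_⟩
    · rw [← hf']; exact a3
    · rw [← hf', h]; exact h3
    · rw [a1, h4]
    · rw [hl, Function.update_of_ne (by rw [h]; exact Ne.symm h3), h6]
    · rw [hcost, h, h5, dist_u3]
  · right
    refine ⟨⟨(L ρ).frozen, g, ?_, ?_, h1, a2, ?_, ?_⟩, ?_⟩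
    · rw [← hf']; exact a3
    · rw [← hf', h]; exact Ne.symm h3
    · rw [a1, h4]
    · rw [hl, Function.update_of_ne (by rw [h]; exact h3), h5]
    · rw [hcost, h, h6, dist_u3]

/-! ### The finite game -/

/-- value of a Boolean -/
def bi (b : Bool) : ℤ := if b then 1 else 0

/-- The new lower level. -/
def dm (p r : Fin 3) (u : Fin 3 → Bool) : ℤ := if r = p then 0 else bi (u r)

/-- The new upper part. -/
def nu (p r : Fin 3) (u : Fin 3 → Bool) (y : Fin 3) : Bool :=
  if r = p then u y else if u r then (u y && decide (y ≠ p)) else decide (y ≠ p)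

/-- Sum of the upper parts off `x`. -/
def su (u : Fin 3 → Bool) (x : Fin 3) : ℤ :=
  (if x = 0 then 0 else bi (u 0)) + (if x = 1 then 0 else bi (u 1)) +
    (if x = 2 then 0 else bi (u 2))

/-- distance on `Fin 3` -/
def d3 (x y : Fin 3) : ℤ := if x = y then 0 else 1

/-- The adversary's winning region. -/
def W (p q x : Fin 3) (u : Fin 3 → Bool) : Bool :=
  let c := bi (u 0) + bi (u 1) + bi (u 2)
  if p = q then
    (decide (c = 2) && u p) || (decide (c = 1) && !(u x) && decide (∃ y, y ≠ x ∧ y ≠ p ∧ !(u y)))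
  else decide (c = 2) || (decide (c = 1) && !(u x))

/-- A table as a function. -/
def tab (a b c : Bool) (y : Fin 3) : Bool := if y = 0 then a else if y = 1 then b else c

lemma tab_eq (u : Fin 3 → Bool) : u = tab (u 0) (u 1) (u 2) := by
  funext y
  fin_cases y <;> simp [tab]

/-- Request `r` makes immediate progress. -/
def P1 (p q x : Fin 3) (u : Fin 3 → Bool) (r : Fin 3) : Prop :=
  (d3 p r = 1 ∧ W q r x (nu p r u) = true ∧ 2 * dm p r u + su (nu p r u) x ≤ 1 + su u x) ∧
  (d3 x r = 1 ∧ W q r p (nu p r u) = true ∧ 2 * dm p r u + su (nu p r u) p ≤ 1 + su u x)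

instance (p q x : Fin 3) (u : Fin 3 → Bool) (r : Fin 3) : Decidable (P1 p q x u r) := by
  unfold P1; infer_instance

/-- Request `r` makes progress at once or after one more request. -/
def P2 (p q x : Fin 3) (u : Fin 3 → Bool) (r : Fin 3) : Prop :=
  (W q r x (nu p r u) = true ∧ 2 * dm p r u + su (nu p r u) x ≤ d3 p r + su u x ∧
    (d3 p r = 1 ∨ ∃ r', P1 q r x (nu p r u) r')) ∧
  (W q r p (nu p r u) = true ∧ 2 * dm p r u + su (nu p r u) p ≤ d3 x r + su u x ∧
    (d3 x r = 1 ∨ ∃ r', P1 q r p (nu p r u) r'))

instance (p q x : Fin 3) (u : Fin 3 → Bool) (r : Fin 3) : Decidable (P2 p q x u r) := by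
  unfold P2; infer_instance

set_option maxRecDepth 100000 in
lemma game_tab : ∀ p q x : Fin 3, ∀ a b c : Bool, W p q x (tab a b c) = true →
    ∃ r, P2 p q x (tab a b c) r := by
  decide +kernel

lemma game (p q x : Fin 3) (u : Fin 3 → Bool) (h : W p q x u = true) : ∃ r, P2 p q x u r := by
  rw [tab_eq u] at h ⊢
  exact game_tab p q x _ _ _ h

end Q331.Del
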