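import Pool.Agent.Q331.Del.Small

/-!
# Version (b) with three servers on a three-point uniform space: the bounds
-/

namespace Q331.Del

open Finset

/-- The combined invariant. -/
def SInv (s₀ : State U3 3) (L : List U3 → State U3 3) (S0 : ℤ) (ρ : List U3) (N : ℤ) : Prop :=
  ∃ (p q x : U3) (u : U3 → Bool) (m n : ℤ),
    Off s₀ ρ p q (fun y => m + bi (u y)) ∧ Pos (L ρ) p q x ∧
    W p q x u = true ∧ (n : ℝ) ≤ algCost (delayedB U3 3) L ρ ∧ 2 * m + su u x ≤ S0 + n ∧ N ≤ n

lemma off_game {s₀ : State U3 3} {ρ : List U3} {p q : U3} {u : U3 → Bool} {m : ℤ} (r : U3)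
    (H : Off s₀ ρ p q (fun y => m + bi (u y))) :
    Off s₀ (ρ ++ [r]) q r (fun y => (m + dm p r u) + bi (nu p r u y)) := by
  refine off_step r H ?_
  have key : ∀ p r y : Fin 3, ∀ a b c : Bool, ∃ z : Fin 3,
      bi (tab a b c z) + d3 z y + d3 p r ≤ dm p r (tab a b c) + bi (nu p r (tab a b c) y) ∨
      bi (tab a b c z) + d3 z r + d3 p y ≤ dm p r (tab a b c) + bi (nu p r (tab a b c) y) := by
    decide +kernel
  intro y
  have hu : u = tab (u (0 : Fin 3)) (u (1 : Fin 3)) (u (2 : Fin 3)) := tab_eq u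
  obtain ⟨z, hz⟩ := key p r y (u (0 : Fin 3)) (u (1 : Fin 3)) (u (2 : Fin 3))
  rw [← hu] at hz
  refine ⟨(show U3 from z), ?_⟩
  rcases hz with hz | hz
  · left
    show m + bi (u z) + d3 z y + d3 p r ≤ (m + dm p r u) + bi (nu p r u y)
    linarith
  · right
    show m + bi (u z) + d3 z r + d3 p y ≤ (m + dm p r u) + bi (nu p r u y)
    linarith

lemma game' (p q x : U3) (u : U3 → Bool) (h : W p q x u = true) :
    ∃ r : U3, (W q r x (nu p r u) = true ∧ 2 * dm p r u + su (nu p r u) x ≤ d3 p r + su u x ∧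
      (d3 p r = 1 ∨ ∃ r' : U3, P1 q r x (nu p r u) r')) ∧
      (W q r p (nu p r u) = true ∧ 2 * dm p r u + su (nu p r u) p ≤ d3 x r + su u x ∧
      (d3 x r = 1 ∨ ∃ r' : U3, P1 q r p (nu p r u) r')) := game p q x u h

lemma d3_nonneg (x y : Fin 3) : 0 ≤ d3 x y := by unfold d3; split_ifs <;> norm_num

lemma one_step {s₀ : State U3 3} {L : List U3 → State U3 3} (hL : IsAlg (delayedB U3 3) s₀ L)
    (hlazy : ∀ ρ r, (L (ρ ++ [r])).pos = Function.update (L ρ).pos (L (ρ ++ [r])).frozen r)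
    {S0 : ℤ} {ρ : List U3} {N : ℤ} {p q x : U3} {u : U3 → Bool} {m n : ℤ}
    (hoff : Off s₀ ρ p q (fun y => m + bi (u y))) (hpos : Pos (L ρ) p q x)
    (hn : (n : ℝ) ≤ algCost (delayedB U3 3) L ρ) (hS : 2 * m + su u x ≤ S0 + n) (hN : N ≤ n)
    {r : U3} (hP : P1 p q x u r) : ∃ ρ', SInv s₀ L S0 ρ' (N + 1) := by
  obtain ⟨⟨a1, a2, a3⟩, ⟨b1, b2, b3⟩⟩ := hP
  have e1 : ∀ a b : U3, du a b = d3 a b := fun a b => rfl
  refine ⟨ρ ++ [r], ?_⟩
  rcases on_step hL hlazy hpos r with ⟨h1, h2⟩ | ⟨h1, h2⟩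
  · refine ⟨q, r, x, nu p r u, m + dm p r u, n + 1, off_game r hoff, h1, a2, ?_, ?_, ?_⟩
    · rw [h2, e1, a1]; push_cast; linarith
    · linarith
    · linarith
  · refine ⟨q, r, p, nu p r u, m + dm p r u, n + 1, off_game r hoff, h1, b2, ?_, ?_, ?_⟩
    · rw [h2, e1, b1]; push_cast; linarith
    · linarith
    · linarith

lemma s_round {s₀ : State U3 3} {L : List U3 → State U3 3} (hL : IsAlg (delayedB U3 3) s₀ L)
    (hlazy : ∀ ρ r, (L (ρ ++ [r])).pos = Function.update (L ρ).pos (L (ρ ++ [r])).frozen r)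
    {S0 : ℤ} {ρ : List U3} {N : ℤ} (H : SInv s₀ L S0 ρ N) : ∃ ρ', SInv s₀ L S0 ρ' (N + 1) := by
  obtain ⟨p, q, x, u, m, n, hoff, hpos, hW, hn, hS, hN⟩ := H
  obtain ⟨r, ⟨a1, a2, a3⟩, ⟨b1, b2, b3⟩⟩ := game' p q x u hW
  have e1 : ∀ a b : U3, du a b = d3 a b := fun a b => rfl
  rcases on_step hL hlazy hpos r with ⟨h1, h2⟩ | ⟨h1, h2⟩
  · have hn' : ((n + d3 p r : ℤ) : ℝ) ≤ algCost (delayedB U3 3) L (ρ ++ [r]) := by
      rw [h2, e1]; push_cast; linarith
    have hd := d3_nonneg p r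
    rcases a3 with a3 | ⟨r', hr'⟩
    · exact ⟨ρ ++ [r], q, r, x, nu p r u, m + dm p r u, n + d3 p r, off_game r hoff, h1, a1, hn',
        by linarith, by linarith⟩
    · exact one_step hL hlazy (off_game r hoff) h1 hn' (by linarith) (by linarith) hr'
  · have hn' : ((n + d3 x r : ℤ) : ℝ) ≤ algCost (delayedB U3 3) L (ρ ++ [r]) := by
      rw [h2, e1]; push_cast; linarith
    have hd := d3_nonneg x r
    rcases b3 with b3 | ⟨r', hr'⟩
    · exact ⟨ρ ++ [r], q, r, p, nu p r u, m + dm p r u, n + d3 x r, off_game r hoff, h1, b1, hn',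
        by linarith, by linarith⟩
    · exact one_step hL hlazy (off_game r hoff) h1 hn' (by linarith) (by linarith) hr'

lemma s_start (s₀ : State U3 3) {L : List U3 → State U3 3} (hL : IsAlg (delayedB U3 3) s₀ L) :
    ∃ ρ, SInv s₀ L 8 ρ 0 := by
  classical
  set r1 : U3 := (0 : Fin 3) with hr1
  set r2 : U3 := (1 : Fin 3) with hr2
  obtain ⟨a1, a2, a3⟩ := hL.2 [] r1
  obtain ⟨b1, b2, b3⟩ := hL.2 ([] ++ [r1]) r2
  have three : ∀ f g : Fin 3, ∃ e, e ≠ f ∧ e ≠ g := by decide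
  set s1 := L ([] ++ [r1]) with hs1
  set s2 := L ([] ++ [r1] ++ [r2]) with hs2
  obtain ⟨e, he1, he2⟩ := three s2.frozen s1.frozen
  refine ⟨[] ++ [r1] ++ [r2], r1, r2, s2.pos e, fun y => !decide (y = r1), 3, 0, ?_, ?_, ?_,
    ?_, ?_, le_refl _⟩
  · -- offline
    intro y
    obtain ⟨g, hg, -⟩ := three s₀.frozen s₀.frozen
    obtain ⟨e', he1', he2'⟩ := three s₀.frozen g
    set t1 : State U3 3 := ⟨Function.update s₀.pos g r1, g⟩ with ht1
    set t2 : State U3 3 := ⟨Function.update (Function.update t1.pos s₀.frozen r2) e' y,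
      s₀.frozen⟩ with ht2
    have d1 : t1.pos g = r1 := by simp [ht1]
    have st1 : (delayedB U3 3).step s₀ r1 t1 := by
      refine ⟨?_, d1, hg⟩
      show Function.update s₀.pos g r1 s₀.frozen = _
      rw [Function.update_of_ne (Ne.symm hg)]
    have d2 : t2.pos g = r1 := by
      show Function.update (Function.update t1.pos s₀.frozen r2) e' y g = r1
      rw [Function.update_of_ne (Ne.symm he2'), Function.update_of_ne hg, d1]
    have d3' : t2.pos s₀.frozen = r2 := by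
      show Function.update (Function.update t1.pos s₀.frozen r2) e' y s₀.frozen = r2
      rw [Function.update_of_ne (Ne.symm he1'), Function.update_self]
    have st2 : (delayedB U3 3).step t1 r2 t2 := by
      refine ⟨?_, d3', Ne.symm hg⟩
      show t2.pos g = t1.pos g
      rw [d2, d1]
    refine ⟨t2, _, Run.snoc (Run.snoc Run.nil st1) st2, ?_, g, e', ?_, ?_, ?_, d3', d2, ?_⟩
    · show 0 + moveCost s₀.pos (Function.update s₀.pos g r1) +
        moveCost t1.pos (Function.update (Function.update t1.pos s₀.frozen r2) e' y) ≤ _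
      have hm := moveCost_two (s := t1) (g := s₀.frozen) (e := e') hg
        (Ne.symm he2') (Ne.symm he1') r2 y
      rw [hm, moveCost_update', dist_u3, dist_u3, dist_u3]
      have c1 : (du (s₀.pos g) r1 : ℝ) ≤ 1 := by exact_mod_cast du_le_one _ _
      have c2 : (du (t1.pos s₀.frozen) r2 : ℝ) ≤ 1 := by exact_mod_cast du_le_one _ _
      have c3 : (du (t1.pos e') y : ℝ) ≤ 1 := by exact_mod_cast du_le_one _ _
      have c4 : (0 : ℝ) ≤ ((bi (!decide (y = r1)) : ℤ) : ℝ) := by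
        unfold bi; split_ifs <;> simp
      push_cast
      linarith
    · exact Ne.symm hg
    · exact Ne.symm he1'
    · exact Ne.symm he2'
    · show Function.update (Function.update t1.pos s₀.frozen r2) e' y e' = y
      rw [Function.update_self]
  · refine ⟨s1.frozen, e, b3, Ne.symm he1, Ne.symm he2, b2, ?_, rfl⟩
    rw [b1, a2]
  · have : ∀ x : Fin 3, W 0 1 x (fun y => !decide (y = 0)) = true := by decide +kernel
    exact this _
  · rw [Int.cast_zero]
    unfold algCost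
    exact sum_nonneg fun _ _ => delayedB_cost_nonneg _ _
  · have : ∀ x : Fin 3, 2 * 3 + su (fun y => !decide (y = 0)) x ≤ 8 + 0 := by decide +kernel
    exact this _

/-- **Lower bound for version (b).** -/
theorem small_lower (s₀ : State U3 3) {C : ℝ} (hC : Competitive (delayedB U3 3) s₀ C) :
    2 ≤ C := by
  classical
  obtain ⟨A, hA, K, hAK⟩ := hC
  obtain ⟨L, hL, hlazy, hLA⟩ := exists_lazyB hA
  have hLK : ∀ ρ, algCost (delayedB U3 3) L ρ ≤ C * opt (delayedB U3 3) s₀ ρ + K :=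
    fun ρ => (hLA ρ).trans (hAK ρ)
  by_contra hlt
  push Not at hlt
  have hall : ∀ N : ℕ, ∃ ρ, SInv s₀ L 8 ρ (N : ℤ) := by
    intro N
    induction N with
    | zero => exact s_start s₀ hL
    | succ N ih =>
      obtain ⟨ρ, hρ⟩ := ih
      obtain ⟨ρ', hρ'⟩ := s_round hL hlazy hρ
      exact ⟨ρ', by push_cast; exact hρ'⟩
  set Cp : ℝ := max C 0 with hCp
  have hCp0 : 0 ≤ Cp := le_max_right _ _
  have hCp2 : Cp < 2 := max_lt hlt (by norm_num)
  have main : ∀ N : ℕ, (N : ℝ) * (2 - Cp) ≤ 2 * K + 10 * Cp := by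
    intro N
    obtain ⟨ρ, p, q, x, u, m, n, hoff, hpos, hW, hn, hS, hN⟩ := hall N
    have h1 := hLK ρ
    have hopt0 : 0 ≤ opt (delayedB U3 3) s₀ ρ := opt_nonneg delayedB_cost_nonneg ρ
    obtain ⟨s, c, hrun, hc, -⟩ := hoff p
    have h2 := opt_le delayedB_cost_nonneg hrun
    have h3 : bi (u p) ≤ 1 := by unfold bi; split_ifs <;> norm_num
    have h4 : 0 ≤ su u x := by
      have hb : ∀ b, 0 ≤ bi b := by intro b; unfold bi; split_ifs <;> norm_num
      have b0 := hb (u (0 : Fin 3))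
      have b1 := hb (u (1 : Fin 3))
      have b2 := hb (u (2 : Fin 3))
      unfold su
      split_ifs <;> linarith
    have h5 : 2 * m ≤ 8 + n := by linarith
    have h6 : ((m + bi (u p) : ℤ) : ℝ) ≤ m + 1 := by
      have : m + bi (u p) ≤ m + 1 := by linarith
      exact_mod_cast this
    have h7 : 2 * opt (delayedB U3 3) s₀ ρ ≤ n + 10 := by
      have h8 : (2 * m : ℝ) ≤ 8 + n := by exact_mod_cast h5
      have h9 : c ≤ m + 1 := hc.trans h6
      linarith
    have h10 : (n : ℝ) ≤ Cp * opt (delayedB U3 3) s₀ ρ + K := by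
      have : C * opt (delayedB U3 3) s₀ ρ ≤ Cp * opt (delayedB U3 3) s₀ ρ :=
        mul_le_mul_of_nonneg_right (le_max_left _ _) hopt0
      linarith
    have h11 : Cp * (2 * opt (delayedB U3 3) s₀ ρ) ≤ Cp * (n + 10) :=
      mul_le_mul_of_nonneg_left h7 hCp0
    have h12 : (N : ℝ) ≤ n := by exact_mod_cast hN
    have h13 : (N : ℝ) * (2 - Cp) ≤ n * (2 - Cp) :=
      mul_le_mul_of_nonneg_right h12 (by linarith)
    nlinarith
  obtain ⟨N, hN⟩ := exists_nat_gt ((2 * K + 10 * Cp) / (2 - Cp))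
  have h1 := main N
  have h2 : 0 < 2 - Cp := by linarith
  rw [div_lt_iff₀ h2] at hN
  linarith

/-- **Upper bound for the ordinary problem**: every real ratio can be achieved. -/
theorem small_upper (X₀ : Fin 3 → U3) (C : ℝ) : Competitive (kServer U3 3) X₀ C := by
  classical
  set I : Fin 3 → U3 := fun i => i with hI
  refine ⟨fun ρ => if ρ = [] then X₀ else I, ⟨by simp, fun ρ r => ?_⟩, ?_⟩
  · show ∃ i, (if ρ ++ [r] = [] then X₀ else I) i = r
    rw [if_neg (by simp)]
    exact ⟨r, rfl⟩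
  set A : List U3 → Fin 3 → U3 := fun ρ => if ρ = [] then X₀ else I with hA'
  have hAlg : IsAlg (kServer U3 3) X₀ A := by
    refine ⟨by simp [hA'], fun ρ r => ?_⟩
    show ∃ i, (if ρ ++ [r] = [] then X₀ else I) i = r
    rw [if_neg (by simp)]
    exact ⟨r, rfl⟩
  have hcost : ∀ ρ, algCost (kServer U3 3) A ρ ≤ moveCost X₀ I := by
    intro ρ
    induction ρ using List.reverseRecOn with
    | nil => rw [algCost_nil]; exact moveCost_nonneg _ _
    | append_singleton ρ r ih =>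
      rw [algCost_snoc]
      by_cases h : ρ = []
      · subst h
        rw [algCost_nil]
        show 0 + moveCost (A []) (A ([] ++ [r])) ≤ _
        simp [hA']
      · have : (kServer U3 3).cost (A ρ) (A (ρ ++ [r])) = 0 := by
          show moveCost (A ρ) (A (ρ ++ [r])) = 0
          simp only [hA', if_neg h]
          rw [if_neg (by simp), moveCost_self']
        rw [this, add_zero]
        exact ih
  refine ⟨moveCost X₀ I + |C| * moveCost X₀ I, fun ρ => ?_⟩
  have h1 := hcost ρ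
  have h2 : opt (kServer U3 3) X₀ ρ ≤ moveCost X₀ I :=
    (opt_le kServer_cost_nonneg (run_alg hAlg ρ)).trans h1
  have h3 : 0 ≤ opt (kServer U3 3) X₀ ρ := opt_nonneg kServer_cost_nonneg ρ
  have h4 : -(|C| * moveCost X₀ I) ≤ C * opt (kServer U3 3) X₀ ρ := by
    have a1 : -(|C| * opt (kServer U3 3) X₀ ρ) ≤ C * opt (kServer U3 3) X₀ ρ := by
      have := neg_abs_le C
      nlinarith
    have a2 : |C| * opt (kServer U3 3) X₀ ρ ≤ |C| * moveCost X₀ I :=
      mul_le_mul_of_nonneg_left h2 (abs_nonneg C)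
    linarith
  linarith

end Q331.Del
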