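import Pool.Agent.Q331.Del.Model

/-!
# Work functions (Koutsoupias-Papadimitriou)
-/

namespace Q331.Del

open Finset

variable {M : Type} [MetricSpace M] {k : ℕ}

/-- The initial work function: minimum matching distance to `X₀`. -/
noncomputable def w0 (X₀ : Fin k → M) (X : Fin k → M) : ℝ :=
  ⨅ σ : Equiv.Perm (Fin k), ∑ i, dist (X i) (X₀ (σ i))

/-- Update of the work function. -/
noncomputable def stepW (w : (Fin k → M) → ℝ) (r : M) (X : Fin k → M) : ℝ :=
  ⨅ i : Fin k, (w (Function.update X i r) + dist r (X i))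

/-- Mix of two configurations. -/
def mix (S : Fin k → Bool) (X Z : Fin k → M) : Fin k → M := fun l => if S l then X l else Z l

/-- `π` witnesses quasi-convexity of `w` at `X`, `Y`. -/
def QCat (w : (Fin k → M) → ℝ) (X Y : Fin k → M) (π : Equiv.Perm (Fin k)) : Prop :=
  ∀ S : Fin k → Bool, w (mix S X (Y ∘ π)) + w (mix S (Y ∘ π) X) ≤ w X + w Y

/-- The properties of work functions that are used. -/
structure IsWF (w : (Fin k → M) → ℝ) : Prop where
  sym : ∀ (X : Fin k → M) (σ : Equiv.Perm (Fin k)), w (X ∘ σ) = w X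
  lip : ∀ X Y : Fin k → M, w X ≤ w Y + ∑ l, dist (Y l) (X l)
  qc : ∀ X Y : Fin k → M, ∃ π : Equiv.Perm (Fin k), QCat w X Y π

lemma stepW_le (w : (Fin k → M) → ℝ) (r : M) (X : Fin k → M) (i : Fin k) :
    stepW w r X ≤ w (Function.update X i r) + dist r (X i) :=
  ciInf_le (Set.finite_range _).bddBelow i

lemma exists_stepW (hk : 0 < k) (w : (Fin k → M) → ℝ) (r : M) (X : Fin k → M) :
    ∃ i, stepW w r X = w (Function.update X i r) + dist r (X i) := by
  haveI : Nonempty (Fin k) := ⟨⟨0, hk⟩⟩
  obtain ⟨i, hi⟩ := exists_eq_ciInf_of_finite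
    (f := fun i : Fin k => w (Function.update X i r) + dist r (X i))
  exact ⟨i, hi.symm⟩

lemma w0_le (X₀ X : Fin k → M) (σ : Equiv.Perm (Fin k)) :
    w0 X₀ X ≤ ∑ i, dist (X i) (X₀ (σ i)) :=
  ciInf_le (Set.finite_range _).bddBelow σ

lemma exists_w0 (X₀ X : Fin k → M) :
    ∃ σ : Equiv.Perm (Fin k), w0 X₀ X = ∑ i, dist (X i) (X₀ (σ i)) := by
  obtain ⟨i, hi⟩ := exists_eq_ciInf_of_finite
    (f := fun σ : Equiv.Perm (Fin k) => ∑ i, dist (X i) (X₀ (σ i)))
  exact ⟨i, hi.symm⟩

lemma isWF_w0 (X₀ : Fin k → M) : IsWF (w0 X₀) where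
  sym := by
    intro X σ
    apply le_antisymm
    · obtain ⟨τ, hτ⟩ := exists_w0 X₀ X
      rw [hτ]
      refine (w0_le X₀ (X ∘ σ) (σ.trans τ)).trans (le_of_eq ?_)
      exact Equiv.sum_comp σ (fun i => dist (X i) (X₀ (τ i)))
    · obtain ⟨τ, hτ⟩ := exists_w0 X₀ (X ∘ σ)
      rw [hτ]
      refine (w0_le X₀ X (σ.symm.trans τ)).trans (le_of_eq ?_)
      rw [← Equiv.sum_comp σ]
      simp
  lip := by
    intro X Y
    obtain ⟨τ, hτ⟩ := exists_w0 X₀ Y
    rw [hτ]
    refine (w0_le X₀ X τ).trans ?_
    rw [← sum_add_distrib]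
    apply sum_le_sum
    intro i _
    have := dist_triangle (X i) (Y i) (X₀ (τ i))
    rw [dist_comm (Y i) (X i)]
    linarith
  qc := by
    intro X Y
    obtain ⟨σ, hσ⟩ := exists_w0 X₀ X
    obtain ⟨τ, hτ⟩ := exists_w0 X₀ Y
    refine ⟨σ.trans τ.symm, fun S => ?_⟩
    refine (add_le_add (w0_le X₀ _ σ) (w0_le X₀ _ σ)).trans (le_of_eq ?_)
    have e : ∑ i, dist (Y i) (X₀ (τ i)) =
        ∑ i, dist (Y ((σ.trans τ.symm) i)) (X₀ (σ i)) := by
      rw [← Equiv.sum_comp (σ.trans τ.symm)]
      simp
    rw [hσ, hτ, e, ← sum_add_distrib, ← sum_add_distrib]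
    apply sum_congr rfl
    intro i _
    unfold mix
    by_cases hS : S i
    · simp [hS]
    · simp [hS]; ring

/-- The exchange argument: the witness may be assumed to respect a common point. -/
lemma QCat.fix {w : (Fin k → M) → ℝ} (hsym : ∀ (X : Fin k → M) (σ : Equiv.Perm (Fin k)),
    w (X ∘ σ) = w X) {X Y : Fin k → M} {π : Equiv.Perm (Fin k)} (h : QCat w X Y π)
    {i j : Fin k} (hij : X i = Y j) : ∃ π' : Equiv.Perm (Fin k), QCat w X Y π' ∧ π' i = j := by
  classical
  by_cases h0 : π i = j
  · exact ⟨π, h, h0⟩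
  set i' := π.symm j with hi'
  have hπi' : π i' = j := by rw [hi']; simp
  have hii' : i ≠ i' := by rintro e; rw [← e] at hπi'; exact h0 hπi'
  set π' : Equiv.Perm (Fin k) := π.trans (Equiv.swap (π i) j) with hπ'
  have e1 : π' i = j := by simp [hπ']
  have e2 : π' i' = π i := by simp [hπ', hπi']
  have e3 : ∀ l, l ≠ i → l ≠ i' → π' l = π l := by
    intro l hl hl'
    simp only [hπ', Equiv.trans_apply]
    apply Equiv.swap_apply_of_ne_of_ne
    · intro e; exact hl (π.injective e)
    · intro e; apply hl'; rw [hi', ← e]; simp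
  refine ⟨π', fun S => ?_, e1⟩
  cases hSi : S i <;> cases hSi' : S i'
  · -- both false
    have a1 : mix S X (Y ∘ π') = (mix S X (Y ∘ π)) ∘ (Equiv.swap i i') := by
      funext l
      by_cases hl : l = i
      · subst hl; simp [mix, hSi, hSi', e1, hπi']
      · by_cases hl' : l = i'
        · rw [hl']; simp [mix, hSi, hSi', e2]
        · simp [mix, Equiv.swap_apply_of_ne_of_ne hl hl', e3 l hl hl']
    have a2 : mix S (Y ∘ π') X = mix S (Y ∘ π) X := by
      funext l
      by_cases hl : l = i
      · subst hl; simp [mix, hSi]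
      · by_cases hl' : l = i'
        · rw [hl']; simp [mix, hSi']
        · simp [mix, e3 l hl hl']
    rw [a1, a2, hsym]
    exact h S
  · -- S i = false, S i' = true
    have a1 : mix S X (Y ∘ π') = mix (Function.update S i true) X (Y ∘ π) := by
      funext l
      by_cases hl : l = i
      · subst hl; simp [mix, hSi, e1, hij]
      · by_cases hl' : l = i'
        · rw [hl']; simp [mix, hSi', Function.update_of_ne (Ne.symm hii')]
        · simp [mix, Function.update_of_ne hl, e3 l hl hl']
    have a2 : mix S (Y ∘ π') X =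
        (mix (Function.update S i true) (Y ∘ π) X) ∘ (Equiv.swap i i') := by
      funext l
      by_cases hl : l = i
      · subst hl
        simp [mix, hSi, hSi', Function.update_of_ne (Ne.symm hii'), hπi', hij]
      · by_cases hl' : l = i'
        · rw [hl']; simp [mix, hSi', e2]
        · simp [mix, Equiv.swap_apply_of_ne_of_ne hl hl', Function.update_of_ne hl, e3 l hl hl']
    rw [a1, a2, hsym]
    exact h _
  · -- S i = true, S i' = false
    have a1 : mix S X (Y ∘ π') =
        (mix (Function.update S i false) X (Y ∘ π)) ∘ (Equiv.swap i i') := by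
      funext l
      by_cases hl : l = i
      · subst hl
        simp [mix, hSi, hSi', Function.update_of_ne (Ne.symm hii'), hπi', hij]
      · by_cases hl' : l = i'
        · rw [hl']; simp [mix, hSi', e2]
        · simp [mix, Equiv.swap_apply_of_ne_of_ne hl hl', Function.update_of_ne hl, e3 l hl hl']
    have a2 : mix S (Y ∘ π') X = mix (Function.update S i false) (Y ∘ π) X := by
      funext l
      by_cases hl : l = i
      · subst hl; simp [mix, hSi, e1, hij]
      · by_cases hl' : l = i'
        · rw [hl']; simp [mix, hSi', Function.update_of_ne (Ne.symm hii')]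
        · simp [mix, Function.update_of_ne hl, e3 l hl hl']
    rw [a1, a2, hsym]
    exact h _
  · -- both true
    have a1 : mix S X (Y ∘ π') = mix S X (Y ∘ π) := by
      funext l
      by_cases hl : l = i
      · subst hl; simp [mix, hSi]
      · by_cases hl' : l = i'
        · rw [hl']; simp [mix, hSi']
        · simp [mix, e3 l hl hl']
    have a2 : mix S (Y ∘ π') X = (mix S (Y ∘ π) X) ∘ (Equiv.swap i i') := by
      funext l
      by_cases hl : l = i
      · subst hl; simp [mix, hSi, hSi', e1, hπi']
      · by_cases hl' : l = i'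
        · rw [hl']; simp [mix, hSi, hSi', e2]
        · simp [mix, Equiv.swap_apply_of_ne_of_ne hl hl', e3 l hl hl']
    rw [a1, a2, hsym]
    exact h S

lemma isWF_stepW (hk : 0 < k) {w : (Fin k → M) → ℝ} (hw : IsWF w) (r : M) :
    IsWF (stepW w r) where
  sym := by
    classical
    intro X σ
    unfold stepW
    refine Equiv.iInf_congr σ ?_
    intro i
    have : Function.update (X ∘ σ) i r = Function.update X (σ i) r ∘ σ := by
      funext l
      by_cases hl : l = i
      · subst hl; simp
      · rw [Function.update_of_ne hl, Function.comp_apply, Function.comp_apply,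
          Function.update_of_ne (fun e => hl (σ.injective e))]
    rw [this, hw.sym]
    rfl
  lip := by
    classical
    intro X Y
    obtain ⟨j, hj⟩ := exists_stepW hk w r Y
    rw [hj]
    refine (stepW_le w r X j).trans ?_
    have h1 := hw.lip (Function.update X j r) (Function.update Y j r)
    have h2 : ∑ l, dist (Function.update Y j r l) (Function.update X j r l) =
        ∑ l ∈ univ.erase j, dist (Y l) (X l) := by
      rw [← Finset.add_sum_erase univ _ (mem_univ j), Function.update_self, Function.update_self,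
        dist_self, zero_add]
      apply sum_congr rfl
      intro l hl
      rw [Function.update_of_ne (ne_of_mem_erase hl), Function.update_of_ne (ne_of_mem_erase hl)]
    have h3 : ∑ l, dist (Y l) (X l) = dist (Y j) (X j) + ∑ l ∈ univ.erase j, dist (Y l) (X l) :=
      (Finset.add_sum_erase univ _ (mem_univ j)).symm
    have h4 := dist_triangle r (Y j) (X j)
    rw [h2] at h1
    rw [h3]
    linarith
  qc := by
    classical
    intro X Y
    obtain ⟨i, hi⟩ := exists_stepW hk w r X
    obtain ⟨j, hj⟩ := exists_stepW hk w r Y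
    obtain ⟨π0, hπ0⟩ := hw.qc (Function.update X i r) (Function.update Y j r)
    obtain ⟨π, hπ, hπij⟩ := hπ0.fix hw.sym (i := i) (j := j) (by simp)
    refine ⟨π, fun S => ?_⟩
    have hne : ∀ l, l ≠ i → π l ≠ j := by
      intro l hl e; rw [← hπij] at e; exact hl (π.injective e)
    have a1 : Function.update (mix S X (Y ∘ π)) i r =
        mix S (Function.update X i r) (Function.update Y j r ∘ π) := by
      funext l
      by_cases hl : l = i
      · subst hl; simp [mix, hπij]
      · simp [mix, Function.update_of_ne hl, Function.update_of_ne (hne l hl)]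
    have a2 : Function.update (mix S (Y ∘ π) X) i r =
        mix S (Function.update Y j r ∘ π) (Function.update X i r) := by
      funext l
      by_cases hl : l = i
      · subst hl; simp [mix, hπij]
      · simp [mix, Function.update_of_ne hl, Function.update_of_ne (hne l hl)]
    have h1 := stepW_le w r (mix S X (Y ∘ π)) i
    have h2 := stepW_le w r (mix S (Y ∘ π) X) i
    rw [a1] at h1
    rw [a2] at h2
    have h3 := hπ S
    rw [hi, hj]
    have h4 : dist r (mix S X (Y ∘ π) i) + dist r (mix S (Y ∘ π) X i) =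
        dist r (X i) + dist r (Y j) := by
      cases hS : S i
      · simp [mix, hS, hπij]; ring
      · simp [mix, hS, hπij]
    linarith

/-- Single exchange. -/
lemma IsWF.exch {w : (Fin k → M) → ℝ} (hw : IsWF w) (X Y : Fin k → M) (i : Fin k) :
    ∃ j, w (Function.update X i (Y j)) + w (Function.update Y j (X i)) ≤ w X + w Y := by
  classical
  obtain ⟨π, hπ⟩ := hw.qc X Y
  refine ⟨π i, ?_⟩
  have h := hπ (fun l => decide (l ≠ i))
  have a1 : mix (fun l => decide (l ≠ i)) X (Y ∘ π) = Function.update X i (Y (π i)) := by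
    funext l
    by_cases hl : l = i
    · subst hl; simp [mix]
    · simp [mix, hl]
  have a2 : mix (fun l => decide (l ≠ i)) (Y ∘ π) X = Function.update Y (π i) (X i) ∘ π := by
    funext l
    by_cases hl : l = i
    · subst hl; simp [mix]
    · rw [Function.comp_apply, Function.update_of_ne (fun e => hl (π.injective e))]
      simp [mix, hl]
  rw [a1, a2, hw.sym] at h
  exact h

lemma stepW_ge (hk : 0 < k) {w : (Fin k → M) → ℝ} (hw : IsWF w) (r : M) (X : Fin k → M) :
    w X ≤ stepW w r X := by
  classical
  obtain ⟨i, hi⟩ := exists_stepW hk w r X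
  rw [hi]
  refine (hw.lip X (Function.update X i r)).trans ?_
  have : ∑ l, dist (Function.update X i r l) (X l) = dist r (X i) := by
    rw [sum_eq_single i]
    · rw [Function.update_self]
    · intro j _ hj; rw [Function.update_of_ne hj, dist_self]
    · intro h; exact absurd (mem_univ _) h
  rw [this]

lemma stepW_le_of_mem (w : (Fin k → M) → ℝ) {r : M} {X : Fin k → M} {i : Fin k}
    (h : X i = r) : stepW w r X ≤ w X := by
  have := stepW_le w r X i
  rw [h, dist_self, add_zero] at this
  have e : Function.update X i r = X := by rw [← h]; simp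
  rwa [e] at this

end Q331.Del
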