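import Pool.Agent.Q331.Del.WF

/-!
# The work function algorithm is `(2 k - 1)`-competitive (Koutsoupias-Papadimitriou)
-/

namespace Q331.Del

open Finset

variable {M : Type} [MetricSpace M] {k : ℕ} {F : Finset M}

/-- An `F`-valued configuration as a configuration. -/
def emb (X : Fin k → F) : Fin k → M := fun l => (X l : M)

lemma emb_update (X : Fin k → F) (i : Fin k) (y : F) :
    emb (Function.update X i y) = Function.update (emb X) i (y : M) := by
  classical
  funext l
  by_cases hl : l = i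
  · subst hl; simp [emb]
  · simp [emb, Function.update_of_ne hl]

/-- The function minimised by a minimiser with respect to `u`. -/
noncomputable def gval (F : Finset M) (w : (Fin k → M) → ℝ) (u : M) : ℝ :=
  ⨅ X : Fin k → F, (w (emb X) - ∑ l, dist u (X l : M))

/-- The potential. -/
noncomputable def Phi (F : Finset M) (w : (Fin k → M) → ℝ) : ℝ :=
  ⨅ U : Fin k → F, (k * w (emb U) + ∑ i, gval F w (U i : M))

lemma gval_le (w : (Fin k → M) → ℝ) (u : M) (X : Fin k → F) :
    gval F w u ≤ w (emb X) - ∑ l, dist u (X l : M) :=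
  ciInf_le (Set.finite_range _).bddBelow X

lemma exists_gval (hF : F.Nonempty) (w : (Fin k → M) → ℝ) (u : M) :
    ∃ X : Fin k → F, gval F w u = w (emb X) - ∑ l, dist u (X l : M) := by
  have : Nonempty F := ⟨⟨hF.choose, hF.choose_spec⟩⟩
  obtain ⟨i, hi⟩ := exists_eq_ciInf_of_finite
    (f := fun X : Fin k → F => (w (emb X) - ∑ l, dist u (X l : M)))
  exact ⟨i, hi.symm⟩

lemma Phi_le (w : (Fin k → M) → ℝ) (U : Fin k → F) :
    Phi F w ≤ k * w (emb U) + ∑ i, gval F w (U i : M) :=
  ciInf_le (Set.finite_range _).bddBelow U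

lemma exists_Phi (hF : F.Nonempty) (w : (Fin k → M) → ℝ) :
    ∃ U : Fin k → F, Phi F w = k * w (emb U) + ∑ i, gval F w (U i : M) := by
  have : Nonempty F := ⟨⟨hF.choose, hF.choose_spec⟩⟩
  obtain ⟨i, hi⟩ := exists_eq_ciInf_of_finite
    (f := fun U : Fin k → F => (k * w (emb U) + ∑ i, gval F w (U i : M)))
  exact ⟨i, hi.symm⟩

lemma sum_dist_update (u : M) (X : Fin k → F) (i : Fin k) (y : F) :
    ∑ l, dist u ((Function.update X i y l : F) : M) =
      ∑ l, dist u (X l : M) - dist u (X i : M) + dist u (y : M) := by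
  classical
  rw [← Finset.add_sum_erase univ _ (mem_univ i), ← Finset.add_sum_erase univ
    (fun l => dist u (X l : M)) (mem_univ i), Function.update_self]
  have : ∑ x ∈ univ.erase i, dist u ((Function.update X i y x : F) : M) =
      ∑ x ∈ univ.erase i, dist u (X x : M) := by
    apply sum_congr rfl
    intro j hj
    rw [Function.update_of_ne (ne_of_mem_erase hj)]
  rw [this]
  ring

section duality

variable {w : (Fin k → M) → ℝ} {r : M} {A : Fin k → F}

/-- A minimiser stays a minimiser. -/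
lemma dual1 (hk : 0 < k) (hw : IsWF w)
    (hA : ∀ X : Fin k → F, w (emb A) - ∑ l, dist r (A l : M) ≤ w (emb X) - ∑ l, dist r (X l : M))
    (X : Fin k → F) :
    stepW w r (emb A) - ∑ l, dist r (A l : M) ≤ stepW w r (emb X) - ∑ l, dist r (X l : M) := by
  classical
  obtain ⟨i, hi⟩ := exists_stepW hk w r (emb X)
  obtain ⟨j, hj⟩ := hw.exch (Function.update (emb X) i r) (emb A) i
  rw [Function.update_self] at hj
  have e1 : Function.update (Function.update (emb X) i r) i (emb A j) =
      emb (Function.update X i (A j)) := by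
    rw [emb_update]; simp [emb]
  rw [e1] at hj
  have h1 := hA (Function.update X i (A j))
  rw [sum_dist_update] at h1
  have h2 := stepW_le w r (emb A) j
  rw [hi]
  have h3 : emb X i = (X i : M) := rfl
  have h4 : emb A j = (A j : M) := rfl
  rw [h3]
  rw [h4] at h2
  linarith

/-- A minimiser maximises the increase. -/
lemma dual2 (hk : 0 < k) (hw : IsWF w)
    (hA : ∀ X : Fin k → F, w (emb A) - ∑ l, dist r (A l : M) ≤ w (emb X) - ∑ l, dist r (X l : M))
    (X : Fin k → F) :
    stepW w r (emb X) + w (emb A) ≤ stepW w r (emb A) + w (emb X) := by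
  classical
  obtain ⟨j, hj⟩ := exists_stepW hk w r (emb A)
  obtain ⟨i, hi⟩ := hw.exch (Function.update (emb A) j r) (emb X) j
  rw [Function.update_self] at hi
  have e1 : Function.update (Function.update (emb A) j r) j (emb X i) =
      emb (Function.update A j (X i)) := by
    rw [emb_update]; simp [emb]
  rw [e1] at hi
  have h1 := hA (Function.update A j (X i))
  rw [sum_dist_update] at h1
  have h2 := stepW_le w r (emb X) i
  rw [hj]
  have h3 : emb X i = (X i : M) := rfl
  have h4 : emb A j = (A j : M) := rfl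
  rw [h4]
  rw [h3] at h2
  linarith

end duality

/-- The potential rises by at least the increase of the work function anywhere. -/
lemma Phi_step (hk : 0 < k) {w : (Fin k → M) → ℝ} (hw : IsWF w) {r : M} (hr : r ∈ F)
    (Z : Fin k → F) :
    Phi F w + (stepW w r (emb Z) - w (emb Z)) ≤ Phi F (stepW w r) := by
  classical
  have hF : F.Nonempty := ⟨r, hr⟩
  obtain ⟨U, hU⟩ := exists_Phi hF (stepW w r)
  obtain ⟨i, hi⟩ := exists_stepW hk w r (emb U)
  set V : Fin k → F := Function.update U i ⟨r, hr⟩ with hV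
  have hVi : (V i : M) = r := by simp [hV]
  have hVl : ∀ l, l ≠ i → V l = U l := fun l hl => by simp [hV, Function.update_of_ne hl]
  have eV : emb V = Function.update (emb U) i r := emb_update U i ⟨r, hr⟩
  have h1 : stepW w r (emb V) ≤ w (emb V) := stepW_le_of_mem w (i := i) hVi
  -- the minimiser with respect to `r`
  obtain ⟨A, hA⟩ := exists_gval hF w r
  have hmin : ∀ X : Fin k → F, w (emb A) - ∑ l, dist r (A l : M) ≤
      w (emb X) - ∑ l, dist r (X l : M) := fun X => by rw [← hA]; exact gval_le w r X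
  have g1 : stepW w r (emb A) - ∑ l, dist r (A l : M) ≤ gval F (stepW w r) r := by
    obtain ⟨X, hX⟩ := exists_gval hF (stepW w r) r
    rw [hX]; exact dual1 hk hw hmin X
  have g2 := dual2 hk hw hmin Z
  have g3 : gval F w r + (stepW w r (emb Z) - w (emb Z)) ≤ gval F (stepW w r) r := by
    rw [hA]; linarith
  -- other coordinates
  have g4 : ∀ u : M, gval F w u ≤ gval F (stepW w r) u := by
    intro u
    obtain ⟨X, hX⟩ := exists_gval hF (stepW w r) u
    rw [hX]
    have := gval_le w u X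
    have h5 := stepW_ge hk hw r (emb X)
    linarith
  -- moving `U i` to `r`
  have g5 : gval F (stepW w r) r ≤ gval F (stepW w r) (U i : M) + k * dist r (U i : M) := by
    obtain ⟨X, hX⟩ := exists_gval hF (stepW w r) (U i : M)
    rw [hX]
    have h5 := gval_le (stepW w r) r X
    have h6 : ∑ l, dist (U i : M) (X l : M) ≤ ∑ l, dist r (X l : M) + k * dist r (U i : M) := by
      have : (k : ℝ) * dist r (U i : M) = ∑ _l : Fin k, dist r (U i : M) := by simp
      rw [this, ← sum_add_distrib]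
      apply sum_le_sum
      intro l _
      have := dist_triangle (U i : M) r (X l : M)
      rw [dist_comm (U i : M) r] at this
      linarith
    linarith
  have s1 : ∑ l, gval F (stepW w r) (V l : M) =
      ∑ l, gval F (stepW w r) (U l : M) - gval F (stepW w r) (U i : M) +
        gval F (stepW w r) r := by
    rw [← Finset.add_sum_erase univ _ (mem_univ i), ← Finset.add_sum_erase univ
      (fun l => gval F (stepW w r) (U l : M)) (mem_univ i), hVi]
    have : ∑ x ∈ univ.erase i, gval F (stepW w r) (V x : M) =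
        ∑ x ∈ univ.erase i, gval F (stepW w r) (U x : M) := by
      apply sum_congr rfl
      intro j hj
      rw [hVl j (ne_of_mem_erase hj)]
    rw [this]
    ring
  have s2 : ∑ l, gval F w (V l : M) + (stepW w r (emb Z) - w (emb Z)) ≤
      ∑ l, gval F (stepW w r) (V l : M) := by
    rw [← Finset.add_sum_erase univ _ (mem_univ i), ← Finset.add_sum_erase univ
      (fun l => gval F (stepW w r) (V l : M)) (mem_univ i), hVi]
    have : ∑ x ∈ univ.erase i, gval F w (V x : M) ≤
        ∑ x ∈ univ.erase i, gval F (stepW w r) (V x : M) := sum_le_sum fun x _ => g4 _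
    linarith
  have h7 := Phi_le w V
  have h8 : w (emb V) ≤ stepW w r (emb V) := stepW_ge hk hw r (emb V)
  have h9 : stepW w r (emb U) = w (emb V) + dist r (U i : M) := by rw [hi, eV]; rfl
  have hk' : (0 : ℝ) ≤ k := Nat.cast_nonneg k
  rw [hU, h9]
  have : (k : ℝ) * (w (emb V) + dist r (U i : M)) = k * w (emb V) + k * dist r (U i : M) := by
    ring
  rw [this]
  linarith

/-- The work function after the requests `ρ`. -/
noncomputable def wf (X₀ : Fin k → M) (ρ : List M) : (Fin k → M) → ℝ :=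
  ρ.foldl stepW (w0 X₀)

lemma wf_snoc (X₀ : Fin k → M) (ρ : List M) (r : M) :
    wf X₀ (ρ ++ [r]) = stepW (wf X₀ ρ) r := by
  unfold wf; rw [List.foldl_append]; rfl

lemma isWF_wf (hk : 0 < k) (X₀ : Fin k → M) (ρ : List M) : IsWF (wf X₀ ρ) := by
  induction ρ using List.reverseRecOn with
  | nil => exact isWF_w0 X₀
  | append_singleton ρ r ih => rw [wf_snoc]; exact isWF_stepW hk ih r

/-- The server moved by the work function algorithm. -/
noncomputable def pick (hk : 0 < k) (w : (Fin k → M) → ℝ) (r : M) (X : Fin k → M) : Fin k :=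
  (exists_stepW hk w r X).choose

lemma pick_spec (hk : 0 < k) (w : (Fin k → M) → ℝ) (r : M) (X : Fin k → M) :
    stepW w r X = w (Function.update X (pick hk w r X) r) + dist r (X (pick hk w r X)) :=
  (exists_stepW hk w r X).choose_spec

/-- The work function algorithm. -/
noncomputable def wfaAux (hk : 0 < k) (X₀ : Fin k → M) (ρ : List M) :
    ((Fin k → M) → ℝ) × (Fin k → M) :=
  ρ.foldl (fun s r => (stepW s.1 r, Function.update s.2 (pick hk s.1 r s.2) r)) (w0 X₀, X₀)

/-- The work function algorithm. -/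
noncomputable def wfa (hk : 0 < k) (X₀ : Fin k → M) (ρ : List M) : Fin k → M :=
  (wfaAux hk X₀ ρ).2

lemma wfaAux_fst (hk : 0 < k) (X₀ : Fin k → M) (ρ : List M) :
    (wfaAux hk X₀ ρ).1 = wf X₀ ρ := by
  induction ρ using List.reverseRecOn with
  | nil => rfl
  | append_singleton ρ r ih =>
    rw [wf_snoc, ← ih]
    unfold wfaAux
    rw [List.foldl_append]
    rfl

lemma wfa_nil (hk : 0 < k) (X₀ : Fin k → M) : wfa hk X₀ [] = X₀ := rfl

lemma wfa_snoc (hk : 0 < k) (X₀ : Fin k → M) (ρ : List M) (r : M) :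
    wfa hk X₀ (ρ ++ [r]) =
      Function.update (wfa hk X₀ ρ) (pick hk (wf X₀ ρ) r (wfa hk X₀ ρ)) r := by
  rw [← wfaAux_fst hk X₀ ρ]
  unfold wfa wfaAux
  rw [List.foldl_append]
  rfl

lemma wfa_isAlg (hk : 0 < k) (X₀ : Fin k → M) : IsAlg (kServer M k) X₀ (wfa hk X₀) := by
  refine ⟨rfl, fun ρ r => ?_⟩
  refine ⟨pick hk (wf X₀ ρ) r (wfa hk X₀ ρ), ?_⟩
  rw [wfa_snoc, Function.update_self]

/-- All the points met by the algorithm. -/
lemma wfa_mem (hk : 0 < k) (X₀ : Fin k → M) (ρ : List M) (h0 : ∀ i, X₀ i ∈ F)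
    (hρ : ∀ r ∈ ρ, r ∈ F) (i : Fin k) : wfa hk X₀ ρ i ∈ F := by
  classical
  induction ρ using List.reverseRecOn with
  | nil => exact h0 i
  | append_singleton ρ r ih =>
    rw [wfa_snoc]
    by_cases hl : i = pick hk (wf X₀ ρ) r (wfa hk X₀ ρ)
    · rw [hl, Function.update_self]; exact hρ r (by simp)
    · rw [Function.update_of_ne hl]
      exact ih (fun r hr => hρ r (by simp [hr]))

/-- The accounting inequality. -/
lemma wfa_account (hk : 0 < k) (X₀ : Fin k → M) (ρ : List M) (h0 : ∀ i, X₀ i ∈ F)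
    (hρ : ∀ r ∈ ρ, r ∈ F) :
    algCost (kServer M k) (wfa hk X₀) ρ + wf X₀ ρ (wfa hk X₀ ρ) + Phi F (w0 X₀) ≤
      Phi F (wf X₀ ρ) + w0 X₀ X₀ := by
  classical
  induction ρ using List.reverseRecOn with
  | nil =>
    rw [algCost_nil, wfa_nil]
    show 0 + w0 X₀ X₀ + Phi F (w0 X₀) ≤ Phi F (w0 X₀) + w0 X₀ X₀
    linarith
  | append_singleton ρ r ih =>
    have ih' := ih (fun r hr => hρ r (by simp [hr]))
    have hr : r ∈ F := hρ r (by simp)
    set w := wf X₀ ρ with hw
    set a := wfa hk X₀ ρ with ha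
    have haF : ∀ i, a i ∈ F := wfa_mem hk X₀ ρ h0 (fun r hr => hρ r (by simp [hr]))
    have hWF : IsWF w := isWF_wf hk X₀ ρ
    rw [algCost_snoc, wf_snoc, wfa_snoc, ← hw, ← ha]
    set i := pick hk w r a with hi
    have h1 : stepW w r a = w (Function.update a i r) + dist r (a i) := pick_spec hk w r a
    have h2 : stepW w r (Function.update a i r) ≤ w (Function.update a i r) :=
      stepW_le_of_mem w (i := i) (by simp)
    have h3 := Phi_step hk hWF hr (fun l => ⟨a l, haF l⟩)
    have h4 : emb (fun l => (⟨a l, haF l⟩ : F)) = a := rfl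
    rw [h4] at h3
    have h5 : (kServer M k).cost a (Function.update a i r) = dist (a i) r := by
      show moveCost a (Function.update a i r) = _
      unfold moveCost
      rw [sum_eq_single i]
      · rw [Function.update_self]
      · intro j _ hj; rw [Function.update_of_ne hj, dist_self]
      · intro h; exact absurd (mem_univ _) h
    rw [h5, dist_comm (a i) r]
    linarith

/-- The potential at the start is bounded below independently of `F`. -/
lemma Phi_w0 (hF : F.Nonempty) (X₀ : Fin k → M) :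
    -(∑ i, ∑ l, dist (X₀ i) (X₀ l)) ≤ Phi F (w0 X₀) := by
  classical
  obtain ⟨U, hU⟩ := exists_Phi hF (w0 X₀)
  rw [hU]
  have g : ∀ u : M, -(∑ l, dist u (X₀ l)) ≤ gval F (w0 X₀) u := by
    intro u
    obtain ⟨X, hX⟩ := exists_gval hF (w0 X₀) u
    obtain ⟨τ, hτ⟩ := exists_w0 X₀ (emb X)
    rw [hX, hτ]
    have h1 : ∑ l, dist u (X l : M) ≤ ∑ l, (dist u (X₀ (τ l)) + dist (emb X l) (X₀ (τ l))) := by
      apply sum_le_sum
      intro l _
      have := dist_triangle u (X₀ (τ l)) (X l : M)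
      rw [dist_comm (X₀ (τ l)) (X l : M)] at this
      exact this
    rw [sum_add_distrib, Equiv.sum_comp τ (fun l => dist u (X₀ l))] at h1
    linarith
  obtain ⟨σ, hσ⟩ := exists_w0 X₀ (emb U)
  rw [hσ]
  have h2 : ∑ i, -(∑ l, dist (U i : M) (X₀ l)) ≤ ∑ i, gval F (w0 X₀) (U i : M) :=
    sum_le_sum fun i _ => g _
  rw [sum_neg_distrib] at h2
  have h3 : ∑ i, ∑ l, dist (U i : M) (X₀ l) ≤
      ∑ i, ∑ l, (dist (emb U i) (X₀ (σ i)) + dist (X₀ (σ i)) (X₀ l)) :=
    sum_le_sum fun i _ => sum_le_sum fun l _ => dist_triangle _ _ _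
  have h4 : ∑ i, ∑ l, (dist (emb U i) (X₀ (σ i)) + dist (X₀ (σ i)) (X₀ l)) =
      k * ∑ i, dist (emb U i) (X₀ (σ i)) + ∑ i, ∑ l, dist (X₀ i) (X₀ l) := by
    have : ∀ i : Fin k, ∑ l, (dist (emb U i) (X₀ (σ i)) + dist (X₀ (σ i)) (X₀ l)) =
        k * dist (emb U i) (X₀ (σ i)) + ∑ l, dist (X₀ (σ i)) (X₀ l) := by
      intro i
      rw [sum_add_distrib]
      simp
    rw [sum_congr rfl (fun i _ => this i), sum_add_distrib, ← mul_sum,
      Equiv.sum_comp σ (fun i => ∑ l, dist (X₀ i) (X₀ l))]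
  linarith

/-- The potential is at most `2 k` times the work function. -/
lemma Phi_le_two (w : (Fin k → M) → ℝ) (Z : Fin k → F) :
    Phi F w ≤ 2 * k * w (emb Z) := by
  refine (Phi_le w Z).trans ?_
  have h : ∑ i, gval F w (Z i : M) ≤ ∑ _i : Fin k, w (emb Z) := by
    apply sum_le_sum
    intro i _
    have h1 := gval_le w (Z i : M) Z
    have h2 : 0 ≤ ∑ l, dist (Z i : M) (Z l : M) := sum_nonneg fun _ _ => dist_nonneg
    linarith
  have h3 : ∑ _i : Fin k, w (emb Z) = k * w (emb Z) := by simp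
  linarith

/-- Any run bounds the work function at its final configuration. -/
lemma wf_le_run (X₀ : Fin k → M) (hk : 0 < k) {ρ : List M} {s : Fin k → M} {c : ℝ}
    (h : Run (kServer M k) X₀ ρ s c) : wf X₀ ρ s ≤ c := by
  induction h with
  | nil =>
    refine (w0_le X₀ X₀ 1).trans ?_
    simp
  | @snoc ρ s c r s' _ hstep ih =>
    obtain ⟨i, hi⟩ := hstep
    rw [wf_snoc]
    refine (stepW_le_of_mem _ hi).trans ?_
    refine ((isWF_wf hk X₀ ρ).lip s' s).trans ?_
    exact add_le_add ih (le_refl _)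

/-- **Koutsoupias-Papadimitriou**: the `k`-server problem is `(2 k - 1)`-competitive. -/
theorem kServer_competitive (hk : 0 < k) (X₀ : Fin k → M) :
    Competitive (kServer M k) X₀ (2 * k - 1) := by
  classical
  refine ⟨wfa hk X₀, wfa_isAlg hk X₀, ∑ i, ∑ l, dist (X₀ i) (X₀ l), fun ρ => ?_⟩
  have hk1 : (1 : ℝ) ≤ k := by exact_mod_cast hk
  have hpos : (0 : ℝ) < 2 * k - 1 := by linarith
  have key : ∀ s c, Run (kServer M k) X₀ ρ s c →
      algCost (kServer M k) (wfa hk X₀) ρ ≤
        (2 * k - 1) * c + ∑ i, ∑ l, dist (X₀ i) (X₀ l) := by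
    intro s c hrun
    set F : Finset M := univ.image X₀ ∪ ρ.toFinset ∪ univ.image s with hF
    have h0 : ∀ i, X₀ i ∈ F := fun i => by simp [hF]
    have hρ : ∀ r ∈ ρ, r ∈ F := fun r hr => by simp [hF, hr]
    have hs : ∀ i, s i ∈ F := fun i => by simp [hF]
    have hFn : F.Nonempty := ⟨X₀ ⟨0, hk⟩, h0 _⟩
    have haF := wfa_mem hk X₀ ρ h0 hρ
    have : Nonempty F := ⟨⟨hFn.choose, hFn.choose_spec⟩⟩
    obtain ⟨Z, hZ⟩ := exists_eq_ciInf_of_finite (f := fun X : Fin k → F => wf X₀ ρ (emb X))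
    have hZmin : ∀ X : Fin k → F, wf X₀ ρ (emb Z) ≤ wf X₀ ρ (emb X) := by
      intro X
      rw [hZ]
      exact ciInf_le (Set.finite_range _).bddBelow X
    have h1 := wfa_account hk X₀ ρ h0 hρ
    have h2 := Phi_w0 hFn X₀
    have h3 := Phi_le_two (wf X₀ ρ) Z
    have h4 := hZmin (fun l => ⟨wfa hk X₀ ρ l, haF l⟩)
    have h5 : emb (fun l => (⟨wfa hk X₀ ρ l, haF l⟩ : F)) = wfa hk X₀ ρ := rfl
    rw [h5] at h4
    have h6 := hZmin (fun l => ⟨s l, hs l⟩)
    have h7 : emb (fun l => (⟨s l, hs l⟩ : F)) = s := rfl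
    rw [h7] at h6
    have h8 := wf_le_run X₀ hk hrun
    have h9 : w0 X₀ X₀ ≤ 0 := by
      refine (w0_le X₀ X₀ 1).trans ?_
      simp
    have h10 : (2 * k - 1) * wf X₀ ρ (emb Z) ≤ (2 * k - 1) * c :=
      mul_le_mul_of_nonneg_left (h6.trans h8) hpos.le
    linarith
  have hne : {c : ℝ | ∃ s, Run (kServer M k) X₀ ρ s c}.Nonempty :=
    ⟨_, _, run_alg (wfa_isAlg hk X₀) ρ⟩
  have : (algCost (kServer M k) (wfa hk X₀) ρ - ∑ i, ∑ l, dist (X₀ i) (X₀ l)) / (2 * k - 1) ≤
      opt (kServer M k) X₀ ρ := by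
    apply le_csInf hne
    rintro c ⟨s, hs⟩
    rw [div_le_iff₀ hpos]
    have := key s c hs
    linarith
  rw [div_le_iff₀ hpos] at this
  linarith

end Q331.Del
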